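import Mathlib

/-! Cosets of algebraic groups which are defined over a subfield. -/

namespace Pool.Agent.Lib.MP_5591bc_ag.Jo

open MvPolynomial

variable {ν : Type*} [Fintype ν] [DecidableEq ν]

/-- `G` is a subgroup of `GL_n(ℂ)` and the coset `Y G` is cut out by polynomials over `E` -/
def Cos (E : Type*) [Field E] [Algebra E ℂ] (Y : Matrix ν ν ℂ) (G : Set (Matrix ν ν ℂ)) : Prop :=
  (∃ I : Set (MvPolynomial (ν × ν) E),
    G = {g | g.det ≠ 0 ∧ ∀ p ∈ I, aeval (fun a => (Y * g) a.1 a.2) p = 0}) ∧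
  1 ∈ G ∧ ∀ a ∈ G, ∀ b ∈ G, a * b⁻¹ ∈ G

/-- the Lie algebra: the generators of the one parameter groups contained in `M` -/
def Lg (M : Set (Matrix ν ν ℂ)) : Set (Matrix ν ν ℂ) := {X | ∀ t : ℂ, NormedSpace.exp (t • X) ∈ M}

end Pool.Agent.Lib.MP_5591bc_ag.Jo
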