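import Pool.Agent.Lib.MP_5591bc_ag.Jo.Set

/-! An element killed by all derivations is a constant. -/

namespace Pool.Agent.Lib.MP_5591bc_ag.Jo

open MvPolynomial Matrix

noncomputable section

theorem der_ex {F : Type*} [Field F] [Algebra ℂ F] [Algebra (Polynomial ℂ) F]
    [IsScalarTower ℂ (Polynomial ℂ) F] [Algebra.FormallySmooth (Polynomial ℂ) F] :
    ∃ D : Derivation ℂ F F, D (algebraMap (Polynomial ℂ) F Polynomial.X) = 1 := by
  let φ : Polynomial ℂ →ₐ[ℂ] TrivSqZeroExt F F := Polynomial.aeval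
    (TrivSqZeroExt.inl (algebraMap (Polynomial ℂ) F Polynomial.X) + TrivSqZeroExt.inr 1)
  have hφ : ∀ p, (φ p).fst = algebraMap (Polynomial ℂ) F p := fun p => by
    have := (Polynomial.aeval_algHom_apply (TrivSqZeroExt.fstHom ℂ F F)
      (TrivSqZeroExt.inl (algebraMap (Polynomial ℂ) F Polynomial.X) + TrivSqZeroExt.inr 1) p).symm
    simp only [TrivSqZeroExt.fstHom_apply, TrivSqZeroExt.fst_add, TrivSqZeroExt.fst_inl,
      TrivSqZeroExt.fst_inr, add_zero] at this
    rw [this, Polynomial.aeval_algebraMap_apply, Polynomial.aeval_X_left_apply]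
  let : Algebra (Polynomial ℂ) (TrivSqZeroExt F F) := φ.toRingHom.toAlgebra
  let g : TrivSqZeroExt F F →ₐ[Polynomial ℂ] F :=
    { toRingHom := (TrivSqZeroExt.fstHom ℂ F F).toRingHom, commutes' := hφ }
  have hg : Function.Surjective g := fun a => ⟨TrivSqZeroExt.inl a, rfl⟩
  have hn : IsNilpotent (RingHom.ker (g : TrivSqZeroExt F F →+* F)) := by
    refine ⟨2, ?_⟩
    refine (sq (M := Ideal (TrivSqZeroExt F F)) _).trans ?_
    rw [Ideal.zero_eq_bot, eq_bot_iff, Ideal.mul_le]
    intro a ha b hb
    have ha' : a.fst = 0 := ha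
    have hb' : b.fst = 0 := hb
    rw [Ideal.mem_bot]
    ext <;> simp [ha', hb']
  let L := Algebra.FormallySmooth.liftOfSurjective (AlgHom.id (Polynomial ℂ) F) g hg hn
  have hL : ∀ a, (L a).fst = a := Algebra.FormallySmooth.liftOfSurjective_apply _ g hg hn
  have hL' : ∀ p, L (algebraMap (Polynomial ℂ) F p) = φ p := L.commutes
  refine ⟨Derivation.mk' ⟨⟨fun a => (L a).snd, fun a b => by simp⟩, fun c a => ?_⟩
    fun a b => ?_, ?_⟩
  · show (L (c • a)).snd = c • (L a).snd
    rw [Algebra.smul_def, IsScalarTower.algebraMap_apply ℂ (Polynomial ℂ) F, map_mul, hL',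
      φ.commutes]
    simp [TrivSqZeroExt.algebraMap_eq_inl', hL, Algebra.smul_def]
  · simp [hL, mul_comm]
  · show (L _).snd = 1
    rw [hL']
    simp [φ]

theorem der_alg {L : Type*} [Field L] [Algebra ℂ L] [Algebra.EssFiniteType ℂ L] {u : L}
    (h : ∀ D : Derivation ℂ L L, D u = 0) : ∃ c : ℂ, u = algebraMap ℂ L c := by
  by_cases hu : IsAlgebraic ℂ u
  · have := minpoly.mem_range_of_degree_eq_one ℂ u
      (IsAlgClosed.degree_eq_one_of_irreducible ℂ (minpoly.irreducible hu.isIntegral))
    obtain ⟨c, hc⟩ := this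
    exact ⟨c, hc.symm⟩
  · exfalso
    let : Algebra (Polynomial ℂ) L := (Polynomial.aeval (R := ℂ) u).toRingHom.toAlgebra
    have : IsScalarTower ℂ (Polynomial ℂ) L :=
      IsScalarTower.of_algebraMap_eq fun c => ((Polynomial.aeval (R := ℂ) u).commutes c).symm
    have : FaithfulSMul (Polynomial ℂ) L := (faithfulSMul_iff_algebraMap_injective _ _).2
      (transcendental_iff_injective.1 hu)
    let : Algebra (FractionRing (Polynomial ℂ)) L := FractionRing.liftAlgebra _ _
    have : IsScalarTower (Polynomial ℂ) (FractionRing (Polynomial ℂ)) L :=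
      FractionRing.isScalarTower_liftAlgebra _ _
    have : IsScalarTower ℂ (FractionRing (Polynomial ℂ)) L :=
      IsScalarTower.of_algebraMap_eq fun c => by
        rw [IsScalarTower.algebraMap_apply ℂ (Polynomial ℂ) (FractionRing (Polynomial ℂ)),
          ← IsScalarTower.algebraMap_apply, ← IsScalarTower.algebraMap_apply]
    have : Algebra.EssFiniteType (FractionRing (Polynomial ℂ)) L :=
      Algebra.EssFiniteType.of_comp ℂ _ _
    have : Algebra.FormallySmooth (FractionRing (Polynomial ℂ)) L :=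
      Algebra.FormallySmooth.of_perfectField
    have : Algebra.FormallySmooth (Polynomial ℂ) (FractionRing (Polynomial ℂ)) :=
      Algebra.FormallySmooth.of_isLocalization (nonZeroDivisors _)
    have : Algebra.FormallySmooth (Polynomial ℂ) L :=
      Algebra.FormallySmooth.comp _ (FractionRing (Polynomial ℂ)) _
    obtain ⟨D, hD⟩ := der_ex (F := L)
    have e : algebraMap (Polynomial ℂ) L Polynomial.X = u := Polynomial.aeval_X u
    rw [e, h] at hD
    exact zero_ne_one hD

end

end Pool.Agent.Lib.MP_5591bc_ag.Jo
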