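import Pool.Agent.Lib.MP_5591bc_ag.Jo.Fix

/-! Descent of the equations of a coset. -/

namespace Pool.Agent.Lib.MP_5591bc_ag.Jo

open MvPolynomial Matrix

noncomputable section

variable {ν A B V : Type*} [Fintype ν] [DecidableEq ν] [CommRing A] [Algebra ℂ A] [CommRing B]
  [Algebra ℂ B] [AddCommGroup V] [Module ℂ V] {G : Set (Matrix ν ν ℂ)} {x y W : Matrix ν ν A}
  {a b g X Y Z : Matrix ν ν ℂ} {T : Submodule ℂ (Matrix ν ν ℂ)} {d : ℕ}
  {E : Type*} [Field E] [Algebra E ℂ]

theorem desc_sub {τ : Type*} (U : Submodule ℂ (MvPolynomial τ ℂ))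
    (hU : ∀ σ : ℂ ≃ₐ[E] ℂ, ∀ F ∈ U, map (σ : ℂ →+* ℂ) F ∈ U) (l : MvPolynomial τ ℂ →ₗ[ℂ] ℂ)
    (h : ∀ F : MvPolynomial τ E, map (algebraMap E ℂ) F ∈ U → l (map (algebraMap E ℂ) F) = 0) :
    ∀ F ∈ U, l F = 0 := by
  classical
  have key : ∀ n : ℕ, ∀ F ∈ U, F.support.card = n → l F = 0 := by
    intro n
    induction n using Nat.strong_induction_on with
    | _ n ih =>
      intro F hF hn
      have step : ∀ H ∈ U, H ≠ 0 → H.support ⊆ F.support → H.support.card < n → l F = 0 := by
        intro H hH h0 hs hc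
        obtain ⟨m, hm⟩ := support_nonempty.2 h0
        have hm0 : coeff m H ≠ 0 := mem_support_iff.1 hm
        have hsub : (F - (coeff m F / coeff m H) • H).support ⊆ F.support.erase m := by
          intro k hk
          rw [mem_support_iff, coeff_sub, coeff_smul, smul_eq_mul] at hk
          rw [Finset.mem_erase]
          constructor
          · rintro rfl
            exact hk (by rw [div_mul_cancel₀ _ hm0, sub_self])
          · by_contra hk'
            have h1 : coeff k F = 0 := notMem_support_iff.1 hk'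
            have h2 : coeff k H = 0 := notMem_support_iff.1 fun hh => hk' (hs hh)
            exact hk (by rw [h1, h2, mul_zero, sub_self])
        have hlt : (F - (coeff m F / coeff m H) • H).support.card < n := by
          refine lt_of_le_of_lt (Finset.card_le_card hsub) ?_
          rw [← hn]
          exact Finset.card_erase_lt_of_mem (hs hm)
        have e1 := ih _ hlt _ (U.sub_mem hF (U.smul_mem _ hH)) rfl
        have e2 := ih _ hc H hH rfl
        rw [map_sub, map_smul, e2, smul_zero, sub_zero] at e1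
        exact e1
      by_cases h0 : F = 0
      · rw [h0, map_zero]
      obtain ⟨m, hm⟩ := support_nonempty.2 h0
      have hm0 : coeff m F ≠ 0 := mem_support_iff.1 hm
      have hF1 : (coeff m F)⁻¹ • F ∈ U := U.smul_mem _ hF
      have hc1 : coeff m ((coeff m F)⁻¹ • F) = 1 := by
        rw [coeff_smul, smul_eq_mul, inv_mul_cancel₀ hm0]
      have hs1 : ((coeff m F)⁻¹ • F).support ⊆ F.support := support_smul
      by_cases hall : ∀ σ : ℂ ≃ₐ[E] ℂ,
          map (σ : ℂ →+* ℂ) ((coeff m F)⁻¹ • F) = (coeff m F)⁻¹ • F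
      · have hr : (coeff m F)⁻¹ • F ∈ Set.range (map (σ := τ) (algebraMap E ℂ)) := by
          rw [mem_range_map_iff_coeffs_subset]
          intro c hc
          obtain ⟨k, -, rfl⟩ := mem_coeffs_iff.1 (Finset.mem_coe.1 hc)
          refine fix_ex fun σ => ?_
          have := congrArg (coeff k) (hall σ)
          rw [coeff_map] at this
          exact this
        obtain ⟨F0, hF0⟩ := hr
        have e := h F0 (hF0 ▸ hF1)
        rw [hF0, map_smul, smul_eq_mul] at e
        exact (mul_eq_zero.1 e).resolve_left (inv_ne_zero hm0)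
      · obtain ⟨σ, hσ⟩ := not_forall.1 hall
        have hsub : (map (σ : ℂ →+* ℂ) ((coeff m F)⁻¹ • F) - (coeff m F)⁻¹ • F).support ⊆
            F.support.erase m := by
          intro k hk
          rw [mem_support_iff, coeff_sub, coeff_map] at hk
          rw [Finset.mem_erase]
          constructor
          · rintro rfl
            exact hk (by rw [hc1, map_one, sub_self])
          · by_contra hk'
            have h1 : coeff k ((coeff m F)⁻¹ • F) = 0 :=
              notMem_support_iff.1 fun hh => hk' (hs1 hh)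
            exact hk (by rw [h1, map_zero, sub_self])
        refine step _ (U.sub_mem (hU σ _ hF1) hF1) (sub_ne_zero.2 hσ)
          (hsub.trans (Finset.erase_subset _ _)) ?_
        refine lt_of_le_of_lt (Finset.card_le_card hsub) ?_
        rw [← hn]
        exact Finset.card_erase_lt_of_mem hm
  exact fun F hF => key _ F hF rfl

/-- substitution of a left multiple of the generic matrix -/
def descSub (Y : Matrix ν ν ℂ) : MvPolynomial (ν × ν) ℂ →ₐ[ℂ] MvPolynomial (ν × ν) ℂ :=
  aeval fun a => ∑ k, C (Y a.1 k) * MvPolynomial.X (k, a.2)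

omit [DecidableEq ν] in
theorem desc_ev (Y g : Matrix ν ν ℂ) (F : MvPolynomial (ν × ν) ℂ) :
    ev g (descSub Y F) = ev (Y * g) F := by
  unfold descSub
  rw [comp_aeval_apply]
  congr 2
  funext a
  simp [Matrix.mul_apply]

theorem desc_deg_aeval {τ : Type*} (f : τ → MvPolynomial τ ℂ) (hf : ∀ i, (f i).totalDegree ≤ 1)
    (F : MvPolynomial τ ℂ) : (aeval f F).totalDegree ≤ F.totalDegree := by
  classical
  conv_lhs => rw [F.as_sum, map_sum]
  refine totalDegree_finsetSum_le fun s hs => ?_
  rw [aeval_monomial]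
  refine (totalDegree_mul _ _).trans ?_
  rw [algebraMap_eq, totalDegree_C, zero_add]
  refine le_trans ?_ (le_totalDegree hs)
  refine (totalDegree_finsetProd _ _).trans (Finset.sum_le_sum fun i _ => ?_)
  refine (totalDegree_pow _ _).trans ?_
  calc s i * (f i).totalDegree ≤ s i * 1 := Nat.mul_le_mul_left _ (hf i)
    _ = s i := mul_one _

omit [DecidableEq ν] in
theorem desc_deg (Y : Matrix ν ν ℂ) (F : MvPolynomial (ν × ν) ℂ) :
    (descSub Y F).totalDegree ≤ F.totalDegree := by
  refine desc_deg_aeval _ (fun a => totalDegree_finsetSum_le fun k _ => ?_) F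
  refine (totalDegree_mul _ _).trans ?_
  rw [totalDegree_C, totalDegree_X, zero_add]

omit [Fintype ν] [DecidableEq ν] in
theorem desc_ev_map (σ : ℂ ≃ₐ[E] ℂ) (y : Matrix ν ν ℂ) (F : MvPolynomial (ν × ν) ℂ) :
    ev y (map (σ : ℂ →+* ℂ) F) = σ (ev (y.map σ.symm) F) := by
  induction F using MvPolynomial.induction_on with
  | C c => simp
  | add p q hp hq => simp only [map_add, hp, hq]
  | mul_X p i hp =>
    simp only [map_mul, hp, map_X, aeval_X, Matrix.map_apply, AlgEquiv.apply_symm_apply]

theorem Cos.ag (h : Cos E Y G) : AG G := by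
  obtain ⟨⟨I, hI⟩, h1, h2⟩ := h
  refine ⟨⟨(fun p => descSub Y (map (algebraMap E ℂ) p)) '' I, ?_⟩, h1, h2⟩
  rw [hI]
  ext g
  simp only [Set.mem_ofPred_eq, Set.forall_mem_image, desc_ev, aeval_map_algebraMap]

theorem Cos.env (h : Cos E Y G) (hY : Y.det ≠ 0) (hg : g.det ≠ 0)
    (hF : ∀ F : MvPolynomial (ν × ν) E, F.totalDegree ≤ d → aeval (fun a => Y a.1 a.2) F = 0 →
      aeval (fun a => (Y * g) a.1 a.2) F = 0) : g ∈ Env d G := by
  obtain ⟨⟨I, hI⟩, h1, -⟩ := h
  refine ⟨hg, fun F hFG hd => ?_⟩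
  have hYu : IsUnit Y.det := isUnit_iff_ne_zero.2 hY
  let U : Submodule ℂ (MvPolynomial (ν × ν) ℂ) :=
    { carrier := {F | F.totalDegree ≤ d ∧ ∀ y : Matrix ν ν ℂ, y.det ≠ 0 →
        (∀ p ∈ I, aeval (fun a => y a.1 a.2) p = 0) → ev y F = 0}
      zero_mem' := ⟨by simp, fun _ _ _ => map_zero _⟩
      add_mem' := fun h k => ⟨(totalDegree_add _ _).trans (max_le h.1 k.1), fun y hy hp => by
        rw [map_add, h.2 y hy hp, k.2 y hy hp, add_zero]⟩
      smul_mem' := fun c F h => ⟨(totalDegree_smul_le _ _).trans h.1, fun y hy hp => by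
        rw [map_smul, h.2 y hy hp, smul_zero]⟩ }
  have hU : ∀ σ : ℂ ≃ₐ[E] ℂ, ∀ F ∈ U, map (σ : ℂ →+* ℂ) F ∈ U := by
    intro σ F hFU
    refine ⟨(totalDegree_le_of_support_subset (support_map_subset _ _)).trans hFU.1,
      fun y hy hp => ?_⟩
    rw [desc_ev_map, hFU.2, map_zero]
    · have e := (σ.symm : ℂ →+* ℂ).map_det y
      rw [RingHom.mapMatrix_apply] at e
      intro h0
      have e2 : σ.symm y.det = 0 := e.trans h0
      exact hy ((map_eq_zero σ.symm).1 e2)
    · intro p hpI
      have e := comp_aeval_apply (f := fun a : ν × ν => y a.1 a.2) (σ.symm : ℂ →ₐ[E] ℂ) p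
      rw [hp p hpI, map_zero] at e
      exact e.symm
  have hl := desc_sub U hU (ev (Y * g)).toLinearMap (by
    intro F0 hF0
    have hdeg : F0.totalDegree ≤ d := by
      have e0 : (map (algebraMap E ℂ) F0).totalDegree ≤ d := hF0.1
      unfold totalDegree at e0 ⊢
      rwa [support_map_of_injective _ (algebraMap E ℂ).injective] at e0
    have hY1 := (hI ▸ h1 : (1 : Matrix ν ν ℂ) ∈ {g : Matrix ν ν ℂ | g.det ≠ 0 ∧
      ∀ p ∈ I, aeval (fun a => (Y * g) a.1 a.2) p = 0}).2
    rw [Matrix.mul_one] at hY1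
    have e := hF0.2 Y hY hY1
    rw [aeval_map_algebraMap] at e
    rw [AlgHom.toLinearMap_apply, aeval_map_algebraMap]
    exact hF F0 hdeg e)
  have hmem : descSub Y⁻¹ F ∈ U := by
    refine ⟨(desc_deg _ _).trans hd, fun y hy hp => ?_⟩
    rw [desc_ev]
    refine hFG _ ?_
    rw [hI]
    refine ⟨?_, ?_⟩
    · rw [Matrix.det_mul]
      exact mul_ne_zero (Matrix.isUnit_nonsing_inv_det Y hYu).ne_zero hy
    · rw [Matrix.mul_nonsing_inv_cancel_left Y y hYu]
      exact hp
  have e := hl _ hmem
  rw [AlgHom.toLinearMap_apply, desc_ev, Matrix.nonsing_inv_mul_cancel_left Y g hYu] at e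
  exact e

end

end Pool.Agent.Lib.MP_5591bc_ag.Jo
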