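import Pool.Agent.Lib.MP_5591bc_ag.Jo.Set

/-! Linear algebra of tangent spaces and normalisers. -/

namespace Pool.Agent.Lib.MP_5591bc_ag.Jo

open MvPolynomial Matrix

noncomputable section

variable {ν A B V : Type*} [Fintype ν] [DecidableEq ν] [CommRing A] [Algebra ℂ A] [CommRing B]
  [Algebra ℂ B] [AddCommGroup V] [Module ℂ V] {G : Set (Matrix ν ν ℂ)} {x y W : Matrix ν ν A}
  {a b g X Y Z : Matrix ν ν ℂ} {T : Submodule ℂ (Matrix ν ν ℂ)} {d : ℕ}

theorem ta_iff : TA G W ↔ ∀ φ : A →ₗ[ℂ] ℂ, W.map φ ∈ Tg G := by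
  constructor
  · intro h φ F hF
    have := congrArg φ (h F hF)
    rw [map_sum, map_zero] at this
    simpa only [map_smul, Matrix.map_apply] using this
  · intro h F hF
    refine (Module.forall_dual_apply_eq_zero_iff ℂ _).1 fun φ => ?_
    have := h φ F hF
    rw [map_sum]
    simpa only [map_smul, Matrix.map_apply] using this

theorem ta_br (hW : TA G W) (hY : Y ∈ Nr (Tg G)) :
    TA G (W * Y.map (algebraMap ℂ A) - Y.map (algebraMap ℂ A) * W) := by
  refine ta_iff.2 fun φ => ?_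
  have h := (Tg G).neg_mem (hY _ (ta_iff.1 hW φ))
  convert h using 1
  ext i j
  have e1 : ∀ (u : A) (c : ℂ), φ (u * algebraMap ℂ A c) = φ u * c := fun u c => by
    rw [mul_comm, ← Algebra.smul_def, map_smul, smul_eq_mul, mul_comm]
  have e2 : ∀ (u : A) (c : ℂ), φ (algebraMap ℂ A c * u) = c * φ u := fun u c => by
    rw [← Algebra.smul_def, map_smul, smul_eq_mul]
  simp only [Matrix.map_apply, Matrix.sub_apply, Matrix.neg_apply, Matrix.mul_apply, map_sub,
    map_sum, e1, e2, neg_sub]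

theorem ta_form (hW : TA G W) {μ : Matrix ν ν ℂ →ₗ[ℂ] ℂ} (hμ : ∀ w ∈ Tg G, μ w = 0) :
    ∑ a : ν × ν, μ (single a.1 a.2 1) • W a.1 a.2 = 0 := by
  refine (Module.forall_dual_apply_eq_zero_iff ℂ _).1 fun φ => ?_
  have h := hμ _ (ta_iff.1 hW φ)
  rw [Matrix.matrix_eq_sum_single (W.map φ), map_sum] at h
  rw [map_sum, Fintype.sum_prod_type, ← h]
  refine Finset.sum_congr rfl fun i _ => ?_
  rw [map_sum]
  refine Finset.sum_congr rfl fun j _ => ?_
  have e : single i j ((W.map φ) i j) = φ (W i j) • single i j (1 : ℂ) := by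
    rw [Matrix.smul_single, smul_eq_mul, mul_one, Matrix.map_apply]
  rw [e, map_smul, map_smul, smul_eq_mul, smul_eq_mul, mul_comm]

theorem Ad_apply (g Y : Matrix ν ν ℂ) : Ad g Y = g * Y * g⁻¹ := by
  rw [Ad, LinearMap.mulLeftRight_apply]

theorem ad_apply (X Y : Matrix ν ν ℂ) : ad X Y = X * Y - Y * X := by
  rw [ad, LinearMap.sub_apply, LinearMap.mulLeft_apply, LinearMap.mulRight_apply]

theorem Ad_one : Ad (1 : Matrix ν ν ℂ) = 1 := by
  refine LinearMap.ext fun Y => ?_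
  rw [Ad_apply, inv_one, Matrix.one_mul, Matrix.mul_one, Module.End.one_apply]

theorem Ad_mul (a b : Matrix ν ν ℂ) : Ad (a * b) = Ad a * Ad b := by
  refine LinearMap.ext fun Y => ?_
  rw [Module.End.mul_apply, Ad_apply, Ad_apply, Ad_apply, Matrix.mul_inv_rev]
  simp only [Matrix.mul_assoc]

theorem ad_br (X Y : Matrix ν ν ℂ) : ad (X * Y - Y * X) = ad X * ad Y - ad Y * ad X := by
  refine LinearMap.ext fun Z => ?_
  simp only [LinearMap.sub_apply, Module.End.mul_apply, ad_apply]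
  noncomm_ring

theorem pres_Ad (hg : g.det ≠ 0) (h : ∀ w ∈ T, Ad g w ∈ T) : Pres T (Nr T) (Ad g) := by
  refine ⟨h, fun y hy W hW => ?_⟩
  have hu : IsUnit g.det := isUnit_iff_ne_zero.2 hg
  have hi : g⁻¹ * g = 1 := Matrix.nonsing_inv_mul g hu
  have hc : ∀ u : Matrix ν ν ℂ, g⁻¹ * (g * u) = u := fun u => by
    rw [← Matrix.mul_assoc, hi, Matrix.one_mul]
  have hinj : Function.Injective ((Ad g).restrict h) := by
    intro u v huv
    have e : Ad g u = Ad g v := congrArg Subtype.val huv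
    have e' := congrArg (fun z => g⁻¹ * z * g) e
    simp only [Ad_apply, Matrix.mul_assoc, hi, hc, Matrix.mul_one] at e'
    exact Subtype.ext e'
  obtain ⟨W', hW'⟩ := LinearMap.injective_iff_surjective.1 hinj ⟨W, hW⟩
  have e : Ad g W' = W := congrArg Subtype.val hW'
  have h2 := h _ (hy _ W'.2)
  convert h2 using 1
  rw [← e]
  simp only [Ad_apply, Matrix.mul_sub, Matrix.sub_mul, Matrix.mul_assoc, hc]

theorem pres_ad (hX : X ∈ Nr T) : Pres T (Nr T) (ad X) := by
  refine ⟨fun w hw => ?_, fun y hy W hW => ?_⟩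
  · rw [ad_apply]
    exact hX w hw
  · have h := T.sub_mem (hX _ (hy W hW)) (hy _ (hX W hW))
    convert h using 1
    rw [ad_apply]
    noncomm_ring

theorem mem_of_forms {T : Submodule ℂ V} {v : V}
    (h : ∀ μ : V →ₗ[ℂ] ℂ, (∀ w ∈ T, μ w = 0) → μ v = 0) : v ∈ T := by
  refine (Subspace.forall_mem_dualAnnihilator_apply_eq_zero_iff T v).1 fun μ hμ => ?_
  exact h μ ((Submodule.mem_dualAnnihilator μ).1 hμ)

end

end Pool.Agent.Lib.MP_5591bc_ag.Jo
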