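import Pool.Agent.Lib.MP_5591bc_ag.Jo.Tan
import Pool.Agent.Lib.MP_5591bc_ag.Jo.Lin
import Pool.Agent.Lib.MP_5591bc_ag.Jo.Der

/-! The action on the normaliser modulo the tangent space is finite. -/

namespace Pool.Agent.Lib.MP_5591bc_ag.Jo

open MvPolynomial Matrix

noncomputable section

variable {ν A B V : Type*} [Fintype ν] [DecidableEq ν] [CommRing A] [Algebra ℂ A] [CommRing B]
  [Algebra ℂ B] [AddCommGroup V] [Module ℂ V] {G : Set (Matrix ν ν ℂ)} {x y W : Matrix ν ν A}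
  {a b g X Y Z : Matrix ν ν ℂ} {T : Submodule ℂ (Matrix ν ν ℂ)} {d : ℕ}

omit [DecidableEq ν] in
theorem finv_mul (D : Derivation ℂ A A) (x y : Matrix ν ν A) :
    (x * y).map D = x.map D * y + x * y.map D := by
  ext i j
  simp only [Matrix.map_apply, Matrix.mul_apply, Matrix.add_apply, map_sum, Derivation.leibniz,
    smul_eq_mul, ← Finset.sum_add_distrib]
  exact Finset.sum_congr rfl fun k _ => by ring

omit [Fintype ν] [DecidableEq ν] in
theorem finv_cst (D : Derivation ℂ A A) (Y : Matrix ν ν ℂ) :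
    (Y.map (algebraMap ℂ A)).map D = 0 := by
  ext i j
  simp only [Matrix.map_apply, Derivation.map_algebraMap, Matrix.zero_apply]

theorem finv_inv (D : Derivation ℂ A A) (hx : IsUnit x.det) :
    (x⁻¹).map D = -(x⁻¹ * x.map D * x⁻¹) := by
  have h1 := finv_mul D x x⁻¹
  have h0 : (1 : Matrix ν ν A).map D = 0 := by
    rw [← finv_cst D 1, Matrix.map_one (algebraMap ℂ A) (map_zero _) (map_one _)]
  rw [Matrix.mul_nonsing_inv x hx, h0] at h1
  rw [Matrix.mul_assoc, eq_neg_of_add_eq_zero_left h1.symm, Matrix.mul_neg, neg_neg,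
    Matrix.nonsing_inv_mul_cancel_left x _ hx]

theorem finv_conj (D : Derivation ℂ A A) (hx : IsUnit x.det) (Y : Matrix ν ν ℂ) :
    (x * Y.map (algebraMap ℂ A) * x⁻¹).map D =
      x * (x⁻¹ * x.map D * Y.map (algebraMap ℂ A) - Y.map (algebraMap ℂ A) * (x⁻¹ * x.map D)) *
        x⁻¹ := by
  rw [finv_mul, finv_mul, finv_cst, finv_inv D hx, Matrix.mul_zero, add_zero, Matrix.mul_sub,
    Matrix.sub_mul, ← Matrix.mul_assoc x (x⁻¹ * x.map D), Matrix.mul_nonsing_inv_cancel_left x _ hx,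
    Matrix.mul_neg, sub_eq_add_neg]
  simp only [Matrix.mul_assoc]

theorem AG.finv_val {L : Type*} [Field L] [Algebra ℂ L] [Algebra.EssFiniteType ℂ L]
    {ξ : Matrix ν ν L} (h : AG G) (hY : Y ∈ Nr (Tg G)) {μ : Matrix ν ν ℂ →ₗ[ℂ] ℂ}
    (hμ : ∀ w ∈ Tg G, μ w = 0) (hξ : Pt G ξ) : ∃ c : ℂ,
      ∑ a : ν × ν, μ (single a.1 a.2 1) • (ξ * Y.map (algebraMap ℂ L) * ξ⁻¹) a.1 a.2 =
        algebraMap ℂ L c := by
  refine der_alg fun D => ?_
  have h1 := ta_form (h.ta_conj hξ (ta_br (h.ta_der D hξ) hY)) hμ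
  rw [← finv_conj D hξ.1] at h1
  rw [map_sum, ← h1]
  exact Finset.sum_congr rfl fun a _ => by rw [Derivation.map_smul, Matrix.map_apply]

/-- the polynomial which expresses the value of a form at a conjugate -/
def finvP (μ : Matrix ν ν ℂ →ₗ[ℂ] ℂ) (Y : Matrix ν ν ℂ) (c : ℂ) : MvPolynomial (ν × ν) ℂ :=
  ∑ a : ν × ν, μ (single a.1 a.2 1) •
    (mvPolynomialX ν ν ℂ * Y.map (algebraMap ℂ (MvPolynomial (ν × ν) ℂ)) *
      (mvPolynomialX ν ν ℂ).adjugate : Matrix ν ν (MvPolynomial (ν × ν) ℂ)) a.1 a.2 -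
    c • (mvPolynomialX ν ν ℂ).det

theorem finv_X (x : Matrix ν ν A) : (ev x).mapMatrix (mvPolynomialX ν ν ℂ) = x := by
  ext i j
  simp [mvPolynomialX]

theorem finv_det (x : Matrix ν ν A) : ev x (mvPolynomialX ν ν ℂ).det = x.det := by
  rw [AlgHom.map_det, finv_X]

theorem finv_ev (μ : Matrix ν ν ℂ →ₗ[ℂ] ℂ) (Y : Matrix ν ν ℂ) (c : ℂ) (hx : IsUnit x.det) :
    ev x (finvP μ Y c) = x.det *
      (∑ a : ν × ν, μ (single a.1 a.2 1) • (x * Y.map (algebraMap ℂ A) * x⁻¹) a.1 a.2 -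
        algebraMap ℂ A c) := by
  have h1 : x.adjugate = x.det • x⁻¹ := by
    rw [Matrix.inv_def, smul_smul, Ring.mul_inverse_cancel _ hx, one_smul]
  have h2 : (ev x).mapMatrix (Y.map (algebraMap ℂ (MvPolynomial (ν × ν) ℂ))) =
      Y.map (algebraMap ℂ A) := by
    ext i j
    simp
  have h3 : (ev x).mapMatrix (mvPolynomialX ν ν ℂ *
      Y.map (algebraMap ℂ (MvPolynomial (ν × ν) ℂ)) * (mvPolynomialX ν ν ℂ).adjugate) = x.det • (x * Y.map (algebraMap ℂ A) * x⁻¹) := by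
    rw [map_mul, map_mul, AlgHom.map_adjugate, finv_X, h2, h1, Matrix.mul_smul]
  rw [finvP, map_sub, map_sum, map_smul, finv_det, mul_sub, Finset.mul_sum, mul_comm x.det
    (algebraMap ℂ A c), Algebra.smul_def]
  congr 1
  refine Finset.sum_congr rfl fun a _ => ?_
  have h4 := congrFun (congrFun h3 a.1) a.2
  rw [AlgHom.mapMatrix_apply, Matrix.map_apply] at h4
  rw [map_smul, h4, Matrix.smul_apply, smul_eq_mul, mul_smul_comm]

theorem finv_sum (μ : Matrix ν ν ℂ →ₗ[ℂ] ℂ) (M : Matrix ν ν ℂ) :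
    ∑ a : ν × ν, μ (single a.1 a.2 1) • M a.1 a.2 = μ M := by
  conv_rhs => rw [Matrix.matrix_eq_sum_single M]
  rw [Fintype.sum_prod_type, map_sum]
  refine Finset.sum_congr rfl fun i _ => ?_
  rw [map_sum]
  refine Finset.sum_congr rfl fun j _ => ?_
  rw [smul_eq_mul, mul_comm, ← smul_eq_mul, ← map_smul, Matrix.smul_single, smul_eq_mul, mul_one]

theorem AG.finv_prime (h : AG G) (hY : Y ∈ Nr (Tg G)) {μ : Matrix ν ν ℂ →ₗ[ℂ] ℂ}
    (hμ : ∀ w ∈ Tg G, μ w = 0) (p : Ideal (MvPolynomial (ν × ν) ℂ)) [p.IsPrime] (hp : VI G ≤ p)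
    (hd : (mvPolynomialX ν ν ℂ).det ∉ p) : ∃ c : ℂ, finvP μ Y c ∈ p := by
  let L := FractionRing (MvPolynomial (ν × ν) ℂ ⧸ p)
  let φ : MvPolynomial (ν × ν) ℂ →ₐ[ℂ] L :=
    (IsScalarTower.toAlgHom ℂ (MvPolynomial (ν × ν) ℂ ⧸ p) L).comp (Ideal.Quotient.mkₐ ℂ p)
  have hφ : ∀ F, φ F = 0 ↔ F ∈ p := fun F => by
    change algebraMap (MvPolynomial (ν × ν) ℂ ⧸ p) L (Ideal.Quotient.mk p F) = 0 ↔ _
    rw [FaithfulSMul.algebraMap_eq_zero_iff, Ideal.Quotient.eq_zero_iff_mem]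
  let ξ : Matrix ν ν L := (mvPolynomialX ν ν ℂ).map φ
  have hev : ev ξ = φ := MvPolynomial.algHom_ext fun a => by simp [ξ, mvPolynomialX]
  have hξ : Pt G ξ := by
    refine ⟨?_, fun F hF => ?_⟩
    · rw [← finv_det, hev, isUnit_iff_ne_zero]
      exact fun k => hd ((hφ _).1 k)
    · rw [hev]
      exact (hφ F).2 (hp hF)
  have : Algebra.EssFiniteType (MvPolynomial (ν × ν) ℂ ⧸ p) L :=
    Algebra.EssFiniteType.of_isLocalization L (nonZeroDivisors _)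
  have : Algebra.EssFiniteType ℂ L :=
    Algebra.EssFiniteType.comp ℂ (MvPolynomial (ν × ν) ℂ ⧸ p) L
  obtain ⟨c, hc⟩ := h.finv_val hY hμ hξ
  refine ⟨c, (hφ _).1 ?_⟩
  rw [← hev, finv_ev μ Y c hξ.1, hc, sub_self, mul_zero]

theorem AG.fin_val (h : AG G) (hY : Y ∈ Nr (Tg G)) {μ : Matrix ν ν ℂ →ₗ[ℂ] ℂ}
    (hμ : ∀ w ∈ Tg G, μ w = 0) : {c | ∃ g ∈ G, c = μ (Ad g Y)}.Finite := by
  have hfin := Ideal.finite_minimalPrimes_of_isNoetherianRing _ (VI G)
  refine (hfin.biUnion (t := fun p => {c | ∃ g ∈ G, p ≤ RingHom.ker (ev g) ∧ c = μ (Ad g Y)})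
    fun p hp => ?_).subset ?_
  · have : p.IsPrime := hp.1.1
    refine Set.Subsingleton.finite ?_
    rintro _ ⟨g, hg, hpg, rfl⟩ _ ⟨g', hg', hpg', rfl⟩
    have hd : (mvPolynomialX ν ν ℂ).det ∉ p := fun k => by
      have := hpg k
      rw [RingHom.mem_ker, finv_det] at this
      exact h.det hg this
    obtain ⟨c, hc⟩ := h.finv_prime hY hμ p hp.1.2 hd
    have key : ∀ g ∈ G, p ≤ RingHom.ker (ev g) → μ (Ad g Y) = c := fun g hg hpg => by
      have := hpg hc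
      rw [RingHom.mem_ker, finv_ev μ Y c (h.det hg).isUnit, finv_sum] at this
      rw [Ad_apply]
      simpa using sub_eq_zero.1 ((mul_eq_zero.1 this).resolve_left (h.det hg))
    rw [key g hg hpg, key g' hg' hpg']
  · rintro _ ⟨g, hg, rfl⟩
    have : (RingHom.ker (ev g)).IsPrime := RingHom.ker_isPrime _
    obtain ⟨p, hp, hpg⟩ := Ideal.exists_minimalPrimes_le (I := VI G) (J := RingHom.ker (ev g))
      fun F hF => hF g hg
    exact Set.mem_biUnion hp ⟨g, hg, hpg, rfl⟩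

end

end Pool.Agent.Lib.MP_5591bc_ag.Jo
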