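import Pool.Agent.Lib.MP_5591bc_ag.Jo.JorA

/-! The theorem of Jordan. -/

namespace Pool.Agent.Lib.MP_5591bc_ag.Jo

open MvPolynomial Matrix

noncomputable section

variable {R : Type*} [NormedRing R] [NormedAlgebra ℂ R] {Γ : Set R} {a b c c' : R}

theorem jor_norm [FiniteDimensional ℂ R] (h : FG Γ) (hn : ∀ g ∈ Γ, ‖g‖ ≤ 1) :
    Cm Γ (5 ^ (2 * Module.finrank ℂ R)) := by
  classical
  obtain ⟨s, hs, hm⟩ := Finset.exists_max_image (h.fin.toFinset.powerset.filter
    fun s => ∀ c ∈ s, ∀ d ∈ s, c ≠ d → 1 / 2 ≤ ‖c - d‖) Finset.card ⟨∅, by simp⟩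
  rw [Finset.mem_filter, Finset.mem_powerset] at hs
  have sub : ∀ c ∈ s, c ∈ Γ := fun c hc => h.fin.mem_toFinset.1 (hs.1 hc)
  refine ⟨Algebra.adjoin ℂ {g | g ∈ Γ ∧ ‖g - 1‖ < 1 / 2}, s, fun a ha b hb => ?_, ?_,
    fun g hg => ?_⟩
  · exact Algebra.commute_of_mem_adjoin_of_forall_mem_commute hb fun y hy =>
      (Algebra.commute_of_mem_adjoin_of_forall_mem_commute ha fun x hx =>
        jor_comm h hn hy.1 hx.1 hy.2 (hx.2.trans (by norm_num))).symm
  · have inj : Function.Injective fun x : R => (2 : ℝ) • x := smul_right_injective _ two_ne_zero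
    rw [← Finset.card_image_of_injective s inj, ← finrank_real_of_complex]
    refine Besicovitch.card_le_of_separated _ ?_ ?_
    · simp only [Finset.mem_image]
      rintro _ ⟨c, hc, rfl⟩
      have := hn c (sub c hc)
      rw [norm_smul, Real.norm_two]
      linarith
    · simp only [Finset.mem_image]
      rintro _ ⟨c, hc, rfl⟩ _ ⟨d, hd, rfl⟩ ne
      have := hs.2 c hc d hd fun e => ne (by rw [e])
      rw [← smul_sub, norm_smul, Real.norm_two]
      linarith
  · have : ∃ c ∈ s, ‖g - c‖ < 1 / 2 := by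
      by_contra hc
      push Not at hc
      have ng : g ∉ s := fun e => by
        have := hc g e
        rw [sub_self, norm_zero] at this
        linarith
      have := hm (insert g s) (Finset.mem_filter.2 ⟨Finset.mem_powerset.2
        (Finset.insert_subset (h.fin.mem_toFinset.2 hg) hs.1), fun c k d l ne => by
          rcases Finset.mem_insert.1 k with k1 | k1 <;> rcases Finset.mem_insert.1 l with l1 | l1
          · exact absurd (k1.trans l1.symm) ne
          · exact k1 ▸ hc d l1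
          · rw [l1, norm_sub_rev]
            exact hc c k1
          · exact hs.2 c k1 d l1 ne⟩)
      rw [Finset.card_insert_of_notMem ng] at this
      omega
    obtain ⟨c, hc, lt⟩ := this
    obtain ⟨c', k, e1, e2⟩ := h.inv c (sub c hc)
    refine ⟨c, hc, c' * g, Algebra.subset_adjoin ⟨h.mul _ k _ hg, ?_⟩,
      by rw [← mul_assoc, e1, one_mul]⟩
    rw [← e2, ← mul_sub]
    exact ((norm_mul_le _ _).trans (mul_le_of_le_one_left (norm_nonneg _) (hn _ k))).trans_lt lt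

theorem jordan {m : ℕ} {Γ : Set (Matrix (Fin m) (Fin m) ℂ)} (h : FG Γ) :
    Cm Γ (5 ^ (2 * m ^ 2)) := by
  classical
  have := h.fin.fintype
  let L : (Fin m → ℂ) →ₗ[ℂ] Γ → Fin m → ℂ := LinearMap.pi fun g => Matrix.toLin' g.1
  have hL : ∀ v (g : Γ), L v g = g.1 *ᵥ v := fun v g => rfl
  have inj : Function.Injective L := fun v w e => by
    simpa [hL] using congrFun e ⟨1, h.one⟩
  let e := LinearEquiv.ofInjective L inj
  let ρ : Matrix (Fin m) (Fin m) ℂ ≃ₐ[ℂ] (LinearMap.range L →L[ℂ] LinearMap.range L) :=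
    Matrix.toLinAlgEquiv'.trans ((e.conjAlgEquiv ℂ).trans (Module.End.toContinuousLinearMap _))
  have hρ : ∀ g v, ρ g (e v) = e (g *ᵥ v) := fun g v => by
    change e (Matrix.toLinAlgEquiv' g (e.symm (e v))) = _
    rw [e.symm_apply_apply, Matrix.toLinAlgEquiv'_apply]
  have : FiniteDimensional ℂ (LinearMap.range L →L[ℂ] LinearMap.range L) :=
    ρ.toLinearEquiv.finiteDimensional
  obtain ⟨𝒜, s, h1, h2, h3⟩ := jor_norm (Γ := ρ '' Γ) ⟨h.fin.image _, ⟨1, h.one, map_one ρ⟩, by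
    rintro _ ⟨a, ha, rfl⟩ _ ⟨b, hb, rfl⟩
    exact ⟨_, h.mul a ha b hb, map_mul ρ a b⟩, by
    rintro _ ⟨a, ha, rfl⟩
    obtain ⟨b, hb, e1, e2⟩ := h.inv a ha
    exact ⟨_, ⟨b, hb, rfl⟩, by rw [← map_mul, e1, map_one], by rw [← map_mul, e2, map_one]⟩⟩ (by
    rintro _ ⟨g, hg, rfl⟩
    refine ContinuousLinearMap.opNorm_le_bound _ zero_le_one fun x => ?_
    obtain ⟨v, rfl⟩ := e.surjective x
    rw [hρ, one_mul]
    change ‖L (g *ᵥ v)‖ ≤ ‖L v‖
    refine (pi_norm_le_iff_of_nonneg (norm_nonneg _)).2 fun k => ?_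
    rw [hL, Matrix.mulVec_mulVec]
    exact norm_le_pi_norm (L v) ⟨_, h.mul _ k.2 _ hg⟩)
  rw [← ρ.toLinearEquiv.finrank_eq, Module.finrank_matrix, Fintype.card_fin, Module.finrank_self,
    mul_one, ← pow_two] at h2
  refine ⟨𝒜.comap ρ.toAlgHom, s.image ρ.symm, fun a ha b hb => ρ.injective ?_,
    Finset.card_image_le.trans h2, fun g hg => ?_⟩
  · rw [map_mul, map_mul]
    exact h1 _ ha _ hb
  · obtain ⟨c, hc, a, ha, k⟩ := h3 _ ⟨g, hg, rfl⟩
    refine ⟨_, Finset.mem_image_of_mem _ hc, ρ.symm a, ?_, ρ.injective ?_⟩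
    · change ρ (ρ.symm a) ∈ 𝒜
      rwa [ρ.apply_symm_apply]
    · rw [map_mul, ρ.apply_symm_apply, ρ.apply_symm_apply, k]

end

end Pool.Agent.Lib.MP_5591bc_ag.Jo
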