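import Pool.Agent.Lib.MP_5591bc_ag.Jo.Set

/-! The action on a subquotient. -/

namespace Pool.Agent.Lib.MP_5591bc_ag.Jo

open MvPolynomial Matrix

noncomputable section

variable {ν A B V : Type*} [Fintype ν] [DecidableEq ν] [CommRing A] [Algebra ℂ A] [CommRing B]
  [Algebra ℂ B] [AddCommGroup V] [Module ℂ V] {G : Set (Matrix ν ν ℂ)} {x y W : Matrix ν ν A}
  {a b g X Y Z : Matrix ν ν ℂ} {T : Submodule ℂ (Matrix ν ν ℂ)} {d : ℕ}

theorem quo_frame [FiniteDimensional ℂ V] (T N : Submodule ℂ V) : ∃ m ≤ Module.finrank ℂ V,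
    ∃ (y : Fin m → V) (μ : Fin m → V →ₗ[ℂ] ℂ), (∀ j, y j ∈ N) ∧ (∀ i, ∀ w ∈ T, μ i w = 0) ∧
      (∀ i j, μ i (y j) = if i = j then 1 else 0) ∧ ∀ n ∈ N, n - ∑ j, μ j n • y j ∈ T := by
  classical
  let S : Submodule ℂ (V ⧸ T) := N.map T.mkQ
  refine ⟨Module.finrank ℂ S, (Submodule.finrank_le S).trans (Submodule.finrank_quotient_le T), ?_⟩
  let β := Module.finBasis ℂ S
  have hy : ∀ j, ∃ y ∈ N, T.mkQ y = (β j : V ⧸ T) := fun j => (β j).2
  choose y hyN hy using hy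
  have hc : ∀ i, ∃ c : (V ⧸ T) →ₗ[ℂ] ℂ, c ∘ₗ S.subtype = β.coord i :=
    fun i => LinearMap.exists_extend _
  choose c hc using hc
  have hc' : ∀ i (s : S), c i s = β.repr s i := fun i s => LinearMap.congr_fun (hc i) s
  refine ⟨y, fun i => c i ∘ₗ T.mkQ, hyN, fun i w hw => ?_, fun i j => ?_, fun n hn => ?_⟩
  · rw [LinearMap.comp_apply, Submodule.mkQ_apply, (Submodule.Quotient.mk_eq_zero T).2 hw, map_zero]
  · rw [LinearMap.comp_apply, hy, hc', Module.Basis.repr_self, Finsupp.single_apply]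
    simp only [eq_comm]
  · rw [← Submodule.Quotient.mk_eq_zero, ← Submodule.mkQ_apply, map_sub, map_sum, sub_eq_zero]
    have h := congrArg S.subtype (β.sum_repr ⟨T.mkQ n, n, hn, rfl⟩)
    rw [map_sum] at h
    refine h.symm.trans (Finset.sum_congr rfl fun j _ => ?_)
    rw [map_smul, map_smul, hy, ← hc']
    rfl

theorem quo_ex [FiniteDimensional ℂ V] (T N : Submodule ℂ V) : ∃ m ≤ Module.finrank ℂ V,
    ∃ Q : Module.End ℂ V →ₗ[ℂ] Matrix (Fin m) (Fin m) ℂ, Q 1 = 1 ∧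
      (∀ Φ Ψ, Pres T N Φ → Pres T N Ψ → Q (Φ * Ψ) = Q Φ * Q Ψ) ∧
      (∀ Φ, Pres T N Φ → Q Φ = 0 → ∀ y ∈ N, Φ y ∈ T) ∧
      ∀ i j, ∃ y ∈ N, ∃ μ : V →ₗ[ℂ] ℂ, (∀ w ∈ T, μ w = 0) ∧ ∀ Φ, Q Φ i j = μ (Φ y) := by
  classical
  obtain ⟨m, hm, y, μ, hy, hμ, hδ, hN⟩ := quo_frame T N
  refine ⟨m, hm,
    { toFun := fun Φ => Matrix.of fun i j => μ i (Φ (y j))
      map_add' := fun Φ Ψ => by ext i j; simp
      map_smul' := fun c Φ => by ext i j; simp }, ?_, fun Φ Ψ hΦ hΨ => ?_, fun Φ hΦ h0 n hn => ?_,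
    fun i j => ⟨y j, hy j, μ i, hμ i, fun Φ => rfl⟩⟩
  · ext i j
    exact (hδ i j).trans (Matrix.one_apply).symm
  · ext i k
    have h := hμ i _ (hΦ.1 _ (hN _ (hΨ.2 _ (hy k))))
    rw [map_sub, map_sub, sub_eq_zero, map_sum, map_sum] at h
    refine h.trans (Finset.sum_congr rfl fun j _ => ?_)
    rw [map_smul, map_smul, smul_eq_mul, mul_comm]
    rfl
  · have h1 : ∀ j, Φ (y j) ∈ T := fun j => by
      have h := hN _ (hΦ.2 _ (hy j))
      have h2 : ∀ i, μ i (Φ (y j)) = 0 := fun i => congrFun (congrFun h0 i) j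
      simpa only [h2, zero_smul, Finset.sum_const_zero, sub_zero] using h
    have h := hΦ.1 _ (hN n hn)
    rw [map_sub, map_sum] at h
    have h3 : ∑ j, Φ (μ j n • y j) ∈ T :=
      T.sum_mem fun j _ => by rw [map_smul]; exact T.smul_mem _ (h1 j)
    simpa using T.add_mem h h3

end

end Pool.Agent.Lib.MP_5591bc_ag.Jo
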