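import Pool.Agent.Lib.MP_5591bc_ag.Jo.EnvA
import Pool.Agent.Lib.MP_5591bc_ag.Jo.FinV
import Pool.Agent.Lib.MP_5591bc_ag.Jo.Jor
import Pool.Agent.Lib.MP_5591bc_ag.Jo.Quo

/-! The envelope of bounded degree. -/

namespace Pool.Agent.Lib.MP_5591bc_ag.Jo

open MvPolynomial Matrix

noncomputable section

theorem env_fg {ν : Type*} [Fintype ν] [DecidableEq ν] {G : Set (Matrix ν ν ℂ)} (h : AG G) {m : ℕ}
    (Q : Module.End ℂ (Matrix ν ν ℂ) →ₗ[ℂ] Matrix (Fin m) (Fin m) ℂ) (Q1 : Q 1 = 1)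
    (Qm : ∀ Φ Ψ, Pres (Tg G) (Nr (Tg G)) Φ → Pres (Tg G) (Nr (Tg G)) Ψ → Q (Φ * Ψ) = Q Φ * Q Ψ)
    (Qe : ∀ i j, ∃ y ∈ Nr (Tg G), ∃ μ : Matrix ν ν ℂ →ₗ[ℂ] ℂ, (∀ w ∈ Tg G, μ w = 0) ∧
      ∀ Φ, Q Φ i j = μ (Φ y)) : FG {r | ∃ g ∈ G, r = Q (Ad g)} := by
  have hm : ∀ a ∈ G, ∀ b ∈ G, Q (Ad (a * b)) = Q (Ad a) * Q (Ad b) := fun a ha b hb => by
    rw [Ad_mul, Qm _ _ (h.pres ha) (h.pres hb)]
  refine ⟨?_, ⟨1, h.one, by rw [Ad_one, Q1]⟩, ?_, ?_⟩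
  · choose y hy μ hμ e using Qe
    have hf : (Set.univ.pi fun i : Fin m => Set.univ.pi fun j : Fin m =>
        {c | ∃ g ∈ G, c = μ i j (Ad g (y i j))}).Finite :=
      Set.Finite.pi fun i => Set.Finite.pi fun j => h.fin_val (hy i j) (hμ i j)
    refine hf.subset ?_
    rintro _ ⟨g, hg, rfl⟩ i - j -
    exact ⟨g, hg, e i j _⟩
  · rintro _ ⟨a, ha, rfl⟩ _ ⟨b, hb, rfl⟩
    exact ⟨a * b, h.mul ha hb, (hm a ha b hb).symm⟩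
  · rintro _ ⟨a, ha, rfl⟩
    have hu : IsUnit a.det := (h.det ha).isUnit
    refine ⟨Q (Ad a⁻¹), ⟨_, h.inv ha, rfl⟩, ?_, ?_⟩
    · rw [← hm _ ha _ (h.inv ha), Matrix.mul_nonsing_inv _ hu, Ad_one, Q1]
    · rw [← hm _ (h.inv ha) _ ha, Matrix.nonsing_inv_mul _ hu, Ad_one, Q1]

theorem env (ν : Type*) [Fintype ν] [DecidableEq ν] : ∃ d : ℕ, ∀ G : Set (Matrix ν ν ℂ), AG G →
    ∀ X ∈ Lg (Env d G), ∀ Y ∈ Lg (Env d G), ∀ Z ∈ Lg (Env d G), ⁅⁅X, Y⁆, Z⁆ ∈ Lg G := by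
  refine ⟨(Fintype.card ν + 1) * 5 ^ (2 * Module.finrank ℂ (Matrix ν ν ℂ) ^ 2),
    fun G h X hX Y hY Z hZ => ?_⟩
  have h1 : Fintype.card ν + 1 ≤
      (Fintype.card ν + 1) * 5 ^ (2 * Module.finrank ℂ (Matrix ν ν ℂ) ^ 2) :=
    Nat.le_mul_of_pos_right _ (by positivity)
  obtain ⟨m, hm, Q, Q1, Qm, Q0, Qe⟩ := quo_ex (Tg G) (Nr (Tg G))
  obtain ⟨𝒜, s, hc, hs, hcov⟩ := jordan (env_fg h Q Q1 Qm Qe)
  have h2 : (Fintype.card ν + 1) * s.card ≤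
      (Fintype.card ν + 1) * 5 ^ (2 * Module.finrank ℂ (Matrix ν ν ℂ) ^ 2) :=
    Nat.mul_le_mul_left _ (hs.trans (Nat.pow_le_pow_right (by norm_num)
      (Nat.mul_le_mul_left _ (Nat.pow_le_pow_left hm 2))))
  have hA : ∀ W ∈ Lg (Env _ G), Q (ad W) ∈ 𝒜 := fun W hW =>
    h.env_cm Q Q1 (fun g hg => hcov _ ⟨g, hg, rfl⟩) h2 hW
  have pX := pres_ad (h.env_nr h1 hX)
  have pY := pres_ad (h.env_nr h1 hY)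
  have pB : Pres (Tg G) (Nr (Tg G)) (ad (X * Y - Y * X)) := by
    rw [ad_br]
    exact ⟨fun w hw => Submodule.sub_mem _ (pX.1 _ (pY.1 w hw)) (pY.1 _ (pX.1 w hw)),
      fun w hw => Submodule.sub_mem _ (pX.2 _ (pY.2 w hw)) (pY.2 _ (pX.2 w hw))⟩
  have h0 : Q (ad (X * Y - Y * X)) = 0 := by
    rw [ad_br, map_sub, Qm _ _ pX pY, Qm _ _ pY pX, hc _ (hA X hX) _ (hA Y hY), sub_self]
  have h3 := Q0 _ pB h0 Z (h.env_nr h1 hZ)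
  rw [ad_apply] at h3
  rw [Ring.lie_def, Ring.lie_def]
  exact h.exp_mem h3

end

end Pool.Agent.Lib.MP_5591bc_ag.Jo
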