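import Pool.Agent.Lib.MP_5591bc_ag.Jo.Exp

/-! One parameter groups in the envelope. -/

namespace Pool.Agent.Lib.MP_5591bc_ag.Jo

open MvPolynomial Matrix

noncomputable section

variable {ν A B V : Type*} [Fintype ν] [DecidableEq ν] [CommRing A] [Algebra ℂ A] [CommRing B]
  [Algebra ℂ B] [AddCommGroup V] [Module ℂ V] {G : Set (Matrix ν ν ℂ)} {x y W : Matrix ν ν A}
  {a b g X Y Z : Matrix ν ν ℂ} {T : Submodule ℂ (Matrix ν ν ℂ)} {d : ℕ}

theorem envA_prod {ι : Type*} (s : Finset ι) (φ : ι → ℂ → ℂ) (hd : ∀ i, Differentiable ℂ (φ i))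
    (h : ∀ t, ∏ i ∈ s, φ i t = 0) : ∃ i ∈ s, ∀ t, φ i t = 0 := by
  classical
  induction s using Finset.induction_on with
  | empty => simpa using h 0
  | insert j s hj ih =>
    have h1 : AnalyticOnNhd ℂ (φ j) Set.univ :=
      Complex.analyticOnNhd_univ_iff_differentiable.mpr (hd j)
    have h2 : AnalyticOnNhd ℂ (fun t => ∏ i ∈ s, φ i t) Set.univ :=
      Complex.analyticOnNhd_univ_iff_differentiable.mpr
        (Differentiable.fun_finsetProd fun i _ => hd i)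
    rcases h1.eq_zero_or_eq_zero_of_mul_eq_zero h2
      (fun z _ => by simpa only [Finset.prod_insert hj] using h z) isPreconnected_univ with k | k
    · exact ⟨j, Finset.mem_insert_self _ _, fun t => k t trivial⟩
    · obtain ⟨i, hi, k'⟩ := ih fun t => k t trivial
      exact ⟨i, Finset.mem_insert_of_mem hi, k'⟩

theorem envA_der (μ : Module.End ℂ (Matrix ν ν ℂ) →ₗ[ℂ] ℂ)
    (h : ∀ t : ℂ, μ (Ad (NormedSpace.exp (t • X))) = 0) : μ (ad X) = 0 := by
  have h1 := Ad_der μ X 0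
  have h2 : (fun t : ℂ => μ (Ad (NormedSpace.exp (t • X)))) = fun _ => 0 := funext h
  rw [h2, zero_smul, NormedSpace.exp_zero, Ad_one, one_mul] at h1
  exact h1.unique (hasDerivAt_const _ _)

theorem cm_inv {R : Type*} [Ring R] [Algebra ℂ R] [FiniteDimensional ℂ R] {𝒜 : Subalgebra ℂ R}
    {c a : R} (ha : a ∈ 𝒜) (h : c * a = 1) : c ∈ 𝒜 := by
  have inj : Function.Injective (LinearMap.mulLeft ℂ (⟨a, ha⟩ : 𝒜)) := by
    intro u v huv
    have e : a * (u : R) = a * (v : R) := congrArg Subtype.val huv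
    apply Subtype.ext
    rw [← one_mul (u : R), ← one_mul (v : R), ← h, mul_assoc, mul_assoc, e]
  obtain ⟨b, hb⟩ := LinearMap.surjective_of_injective inj 1
  have e : a * (b : R) = 1 := congrArg Subtype.val hb
  have e2 : c = b := by rw [← mul_one c, ← e, ← mul_assoc, h, one_mul]
  rw [e2]
  exact b.2

theorem AG.env_nr (h : AG G) (hd : Fintype.card ν + 1 ≤ d) (hX : X ∈ Lg (Env d G)) :
    X ∈ Nr (Tg G) := by
  intro w hw
  refine mem_of_forms fun μ hμ => ?_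
  have := envA_der (X := X) (μ ∘ₗ LinearMap.applyₗ w) fun t =>
    hμ _ ((h.env_pres hd (hX t)).1 w hw)
  rw [← ad_apply]
  exact this

theorem AG.env_cm (h : AG G) {R : Type*} [Ring R] [Algebra ℂ R] [FiniteDimensional ℂ R]
    (Q : Module.End ℂ (Matrix ν ν ℂ) →ₗ[ℂ] R) (Q1 : Q 1 = 1) {𝒜 : Subalgebra ℂ R} {s : Finset R}
    (hs : ∀ g ∈ G, ∃ c ∈ s, ∃ a ∈ 𝒜, Q (Ad g) = c * a) (hd : (Fintype.card ν + 1) * s.card ≤ d)
    (hX : X ∈ Lg (Env d G)) : Q (ad X) ∈ 𝒜 := by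
  classical
  have key : ∃ c ∈ s, ∀ t : ℂ, Q (Ad (NormedSpace.exp (t • X))) ∈
      𝒜.toSubmodule.map (LinearMap.mulLeft ℂ c) := by
    by_contra hn
    have h1 : ∀ c : R, ∃ μ : R →ₗ[ℂ] ℂ, (∀ a ∈ 𝒜, μ (c * a) = 0) ∧
        (c ∈ s → ∃ t : ℂ, μ (Q (Ad (NormedSpace.exp (t • X)))) ≠ 0) := by
      intro c
      by_cases hc : c ∈ s
      · by_contra hm
        refine hn ⟨c, hc, fun t => mem_of_forms fun μ hμ => ?_⟩
        by_contra h0
        exact hm ⟨μ, fun a ha => hμ _ ⟨a, ha, rfl⟩, fun _ => ⟨t, h0⟩⟩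
      · exact ⟨0, fun _ _ => rfl, fun k => absurd k hc⟩
    choose μ hμ hμ' using h1
    choose F hF hF' using fun c : R => ad_pol (μ c ∘ₗ Q)
    have hV : ∏ c ∈ s, F c ∈ VI G := by
      intro g hg
      obtain ⟨c, hc, a, ha, e⟩ := hs g hg
      rw [map_prod]
      refine Finset.prod_eq_zero hc ?_
      rw [hF' c g (h.det hg), LinearMap.comp_apply, e, hμ c a ha, mul_zero]
    have hD : (∏ c ∈ s, F c).totalDegree ≤ d := by
      refine (totalDegree_finsetProd _ _).trans (le_trans ?_ hd)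
      rw [mul_comm, ← smul_eq_mul]
      exact Finset.sum_le_card_nsmul _ _ _ fun c _ => hF c
    obtain ⟨c, hc, k⟩ := envA_prod s (fun c t => (μ c ∘ₗ Q) (Ad (NormedSpace.exp (t • X))))
      (fun c t => (Ad_der (μ c ∘ₗ Q) X t).differentiableAt) fun t => by
        have e := (hX t).2 _ hV hD
        rw [map_prod, Finset.prod_congr rfl fun c _ => hF' c _ (exp_det _),
          Finset.prod_mul_distrib] at e
        exact (mul_eq_zero.mp e).resolve_left
          (Finset.prod_ne_zero_iff.mpr fun _ _ => exp_det _)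
    obtain ⟨t, ht⟩ := hμ' c hc
    exact ht (k t)
  obtain ⟨c, -, k⟩ := key
  have hc : c ∈ 𝒜 := by
    obtain ⟨a, ha, e⟩ := k 0
    rw [zero_smul, NormedSpace.exp_zero, Ad_one, Q1] at e
    exact cm_inv ha e
  refine mem_of_forms (T := 𝒜.toSubmodule) fun μ hμ => ?_
  refine envA_der (μ ∘ₗ Q) fun t => hμ _ ?_
  obtain ⟨a, ha, e⟩ := k t
  rw [← e]
  exact 𝒜.mul_mem hc ha

end

end Pool.Agent.Lib.MP_5591bc_ag.Jo
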