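import Pool.Agent.Lib.MP_5591bc_ag.Jo.Pol

/-! One parameter groups. -/

namespace Pool.Agent.Lib.MP_5591bc_ag.Jo

open MvPolynomial Matrix

noncomputable section

variable {ν A B V : Type*} [Fintype ν] [DecidableEq ν] [CommRing A] [Algebra ℂ A] [CommRing B]
  [Algebra ℂ B] [AddCommGroup V] [Module ℂ V] {G : Set (Matrix ν ν ℂ)} {x y W : Matrix ν ν A}
  {a b g X Y Z : Matrix ν ν ℂ} {T : Submodule ℂ (Matrix ν ν ℂ)} {d : ℕ}

theorem exp_det (X : Matrix ν ν ℂ) : (NormedSpace.exp X).det ≠ 0 :=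
  ((Matrix.isUnit_iff_isUnit_det _).1 (Matrix.isUnit_exp X)).ne_zero

set_option backward.isDefEq.respectTransparency false in
theorem exp_ent (X : Matrix ν ν ℂ) (t : ℂ) (i j : ν) :
    HasDerivAt (fun t : ℂ => NormedSpace.exp (t • X) i j)
      ((NormedSpace.exp (t • X) * X) i j) t := by
  open scoped Matrix.Norms.Operator in
  exact (LinearMap.toContinuousLinearMap
    (Matrix.entryLinearMap ℂ ℂ i j)).hasFDerivAt.comp_hasDerivAt t (hasDerivAt_exp_smul_const X t)

set_option backward.isDefEq.respectTransparency false in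
theorem exp_ent' (X : Matrix ν ν ℂ) (t : ℂ) (i j : ν) :
    HasDerivAt (fun t : ℂ => NormedSpace.exp (t • X) i j)
      ((X * NormedSpace.exp (t • X)) i j) t := by
  open scoped Matrix.Norms.Operator in
  exact (LinearMap.toContinuousLinearMap
    (Matrix.entryLinearMap ℂ ℂ i j)).hasFDerivAt.comp_hasDerivAt t (hasDerivAt_exp_smul_const' X t)

theorem exp_chain {M : ℂ → Matrix ν ν ℂ} {M' : Matrix ν ν ℂ} {t : ℂ}
    (h : ∀ i j, HasDerivAt (fun t => M t i j) (M' i j) t) (F : MvPolynomial (ν × ν) ℂ) :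
    HasDerivAt (fun t => ev (M t) F) (∑ a : ν × ν, ev (M t) (pderiv a F) * M' a.1 a.2) t := by
  induction F using MvPolynomial.induction_on with
  | C c => simpa using hasDerivAt_const t c
  | add P Q hP hQ => simpa [add_mul, Finset.sum_add_distrib] using hP.fun_add hQ
  | mul_X P b hP =>
    have h1 := hP.fun_mul (h b.1 b.2)
    have h2 : ∑ a : ν × ν, ev (M t) (pderiv a (P * MvPolynomial.X b)) * M' a.1 a.2 =
        (∑ a : ν × ν, ev (M t) (pderiv a P) * M' a.1 a.2) * M t b.1 b.2 +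
          ev (M t) P * M' b.1 b.2 := by
      have h3 : ∀ a : ν × ν, ev (M t) (pderiv a (P * MvPolynomial.X b)) * M' a.1 a.2 =
          ev (M t) (pderiv a P) * M' a.1 a.2 * M t b.1 b.2 +
            if a = b then ev (M t) P * M' b.1 b.2 else 0 := fun a => by
        rw [pderiv_mul, map_add, map_mul, map_mul, aeval_X]
        split_ifs with hab
        · subst hab
          rw [pderiv_X_self, map_one]
          ring
        · rw [pderiv_X_of_ne (Ne.symm hab), map_zero]
          ring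
      simp only [h3, Finset.sum_add_distrib, Finset.sum_ite_eq', Finset.mem_univ, if_true,
        Finset.sum_mul]
    rw [h2]
    simpa only [map_mul, aeval_X] using h1

theorem exp_der (X : Matrix ν ν ℂ) (F : MvPolynomial (ν × ν) ℂ) (t : ℂ) :
    HasDerivAt (fun t : ℂ => ev (NormedSpace.exp (t • X)) F)
      (∑ a : ν × ν, ev (NormedSpace.exp (t • X)) (pderiv a F) *
        (NormedSpace.exp (t • X) * X) a.1 a.2) t :=
  exp_chain (M := fun t => NormedSpace.exp (t • X)) (exp_ent X t) F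

theorem exp_del (X : Matrix ν ν ℂ) (F : MvPolynomial (ν × ν) ℂ) :
    ∃ P : MvPolynomial (ν × ν) ℂ, ∀ g : Matrix ν ν ℂ,
      ev g P = ∑ a : ν × ν, ev g (pderiv a F) * (g * X) a.1 a.2 :=
  ⟨∑ a : ν × ν, pderiv a F * ∑ k, MvPolynomial.X (a.1, k) * C (X k a.2), fun g => by
    simp only [map_sum, map_mul, aeval_X, aeval_C, Matrix.mul_apply, Algebra.algebraMap_self,
      RingHom.id_apply]⟩

theorem exp_left (g : Matrix ν ν ℂ) (F : MvPolynomial (ν × ν) ℂ) :
    ∃ P : MvPolynomial (ν × ν) ℂ, ∀ k : Matrix ν ν ℂ, ev k P = ev (g * k) F := by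
  refine ⟨aeval (fun a : ν × ν => ∑ l, C (g a.1 l) * MvPolynomial.X (l, a.2)) F, fun k => ?_⟩
  rw [← AlgHom.comp_apply]
  congr 1
  ext a
  simp [Matrix.mul_apply]

theorem AG.exp_tan (h : AG G) (hX : X ∈ Tg G) {F : MvPolynomial (ν × ν) ℂ} (hF : F ∈ VI G)
    (hg : g ∈ G) : ∑ a : ν × ν, ev g (pderiv a F) * (g * X) a.1 a.2 = 0 := by
  obtain ⟨P, hP⟩ := exp_left g F
  have h1 : P ∈ VI G := fun k hk => (hP k).trans (hF _ (h.mul hg hk))
  have h2 := hX P h1
  have h3 := exp_chain (M := fun t : ℂ => 1 + t • X) (M' := X) (t := 0) (fun i j => by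
    simpa using ((hasDerivAt_id (0 : ℂ)).mul_const (X i j)).const_add ((1 : Matrix ν ν ℂ) i j)) P
  have h4 := exp_chain (M := fun t : ℂ => g * (1 + t • X)) (M' := g * X) (t := 0) (fun i j => by
    simpa [mul_add] using
      ((hasDerivAt_id (0 : ℂ)).mul_const ((g * X) i j)).const_add (g i j)) F
  simp only [hP] at h3
  have h5 := h4.unique h3
  simp only [zero_smul, add_zero, mul_one] at h5
  rw [h5]
  simpa only [smul_eq_mul] using h2

theorem AG.exp_mem (h : AG G) (hX : X ∈ Tg G) : X ∈ Lg G := by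
  intro t
  refine h.mem.2 ⟨(exp_det _).isUnit, fun F hF => ?_⟩
  have key : ∀ (n : ℕ) (F : MvPolynomial (ν × ν) ℂ), F ∈ VI G →
      iteratedDeriv n (fun t : ℂ => ev (NormedSpace.exp (t • X)) F) 0 = 0 := by
    intro n
    induction n with
    | zero =>
      intro F hF
      simpa using hF 1 h.one
    | succ n ih =>
      intro F hF
      obtain ⟨P, hP⟩ := exp_del X F
      have h1 : deriv (fun t : ℂ => ev (NormedSpace.exp (t • X)) F) =
          fun t : ℂ => ev (NormedSpace.exp (t • X)) P := by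
        funext t
        rw [hP]
        exact (exp_der X F t).deriv
      rw [iteratedDeriv_succ', h1]
      exact ih P fun g hg => (hP g).trans (h.exp_tan hX hF hg)
  have h2 := Complex.taylorSeries_eq_of_entire' 0 t
    (f := fun t : ℂ => ev (NormedSpace.exp (t • X)) F)
    fun t => (exp_der X F t).differentiableAt
  simp only [key _ F hF, mul_zero, zero_mul, tsum_zero] at h2
  exact h2.symm

theorem exp_lin (l : Matrix ν ν ℂ →ₗ[ℂ] ℂ) (a : Matrix ν ν ℂ) :
    l a = ∑ p : ν × ν, a p.1 p.2 * l (single p.1 p.2 1) := by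
  conv_lhs => rw [matrix_eq_sum_single a]
  rw [Fintype.sum_prod_type, map_sum]
  refine Finset.sum_congr rfl fun i _ => ?_
  rw [map_sum]
  refine Finset.sum_congr rfl fun j _ => ?_
  rw [← smul_eq_mul, ← map_smul, smul_single, smul_eq_mul, mul_one]

theorem exp_lder (l : Matrix ν ν ℂ →ₗ[ℂ] ℂ) {M : ℂ → Matrix ν ν ℂ} {M' : Matrix ν ν ℂ} {t : ℂ}
    (h : ∀ i j, HasDerivAt (fun t => M t i j) (M' i j) t) :
    HasDerivAt (fun t => l (M t)) (l M') t := by
  have h1 : (fun t => l (M t)) = fun t => ∑ p : ν × ν, M t p.1 p.2 * l (single p.1 p.2 1) :=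
    funext fun t => exp_lin l _
  rw [h1, exp_lin l M']
  exact HasDerivAt.fun_sum fun p _ => (h p.1 p.2).mul_const _

theorem exp_bil (β : Matrix ν ν ℂ →ₗ[ℂ] Matrix ν ν ℂ →ₗ[ℂ] ℂ) {M N : ℂ → Matrix ν ν ℂ}
    {M' N' : Matrix ν ν ℂ} {t : ℂ} (h : ∀ i j, HasDerivAt (fun t => M t i j) (M' i j) t)
    (k : ∀ i j, HasDerivAt (fun t => N t i j) (N' i j) t) :
    HasDerivAt (fun t => β (M t) (N t)) (β M' (N t) + β (M t) N') t := by
  have h0 : ∀ a b, β a b = ∑ p : ν × ν, a p.1 p.2 * β (single p.1 p.2 1) b :=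
    fun a b => exp_lin (β.flip b) a
  have h1 : (fun t => β (M t) (N t)) =
      fun t => ∑ p : ν × ν, M t p.1 p.2 * β (single p.1 p.2 1) (N t) := funext fun t => h0 _ _
  rw [h1, h0 M', h0 (M t), ← Finset.sum_add_distrib]
  exact HasDerivAt.fun_sum fun p _ => (h p.1 p.2).fun_mul (exp_lder _ k)

theorem Ad_der (μ : Module.End ℂ (Matrix ν ν ℂ) →ₗ[ℂ] ℂ) (X : Matrix ν ν ℂ) (t : ℂ) :
    HasDerivAt (fun t : ℂ => μ (Ad (NormedSpace.exp (t • X))))
      (μ (Ad (NormedSpace.exp (t • X)) * ad X)) t := by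
  let β : Matrix ν ν ℂ →ₗ[ℂ] Matrix ν ν ℂ →ₗ[ℂ] ℂ :=
    LinearMap.mk₂ ℂ (fun a b => μ (LinearMap.mulLeftRight ℂ (a, b)))
      (fun a a' b => by rw [← map_add]; congr 1; ext1 y; simp [add_mul])
      (fun c a b => by rw [← map_smul]; congr 1; ext1 y; simp)
      (fun a b b' => by rw [← map_add]; congr 1; ext1 y; simp [mul_add])
      (fun c a b => by rw [← map_smul]; congr 1; ext1 y; simp)
  have h0 : ∀ t : ℂ, NormedSpace.exp (t • -X) = (NormedSpace.exp (t • X))⁻¹ := fun t => by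
    rw [smul_neg, Matrix.exp_neg]
  have h1 := exp_bil β (M := fun t : ℂ => NormedSpace.exp (t • X))
    (N := fun t : ℂ => NormedSpace.exp (t • -X)) (exp_ent X t) (exp_ent' (-X) t)
  simp only [h0, β, LinearMap.mk₂_apply] at h1
  have h2 : Ad (NormedSpace.exp (t • X)) * ad X =
      LinearMap.mulLeftRight ℂ (NormedSpace.exp (t • X) * X, (NormedSpace.exp (t • X))⁻¹) +
        LinearMap.mulLeftRight ℂ (NormedSpace.exp (t • X), -X * (NormedSpace.exp (t • X))⁻¹) := by
    ext1 y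
    rw [Module.End.mul_apply, Ad_apply, ad_apply, LinearMap.add_apply,
      LinearMap.mulLeftRight_apply, LinearMap.mulLeftRight_apply]
    noncomm_ring
  rw [h2, map_add]
  exact h1

end

end Pool.Agent.Lib.MP_5591bc_ag.Jo
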