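import Pool.Agent.Lib.MP_5591bc_ag.Hy.FinH
import Pool.Agent.Lib.MP_5591bc_ag.Jo.Env
import Pool.Agent.Lib.MP_5591bc_ag.Jo.Desc

/-! The count of the points whose period matrix lies in a small coset. -/

namespace Pool.Agent.Lib.MP_5591bc_ag.Jo

open Polynomial Set Filter Topology Matrix G R W M N E Z J B K Rg Cu Cv Hy

theorem finC_num {C N δ D : ℕ} {L x : ℝ} (hL : 1 / 2 ≤ L) (hD : 1 ≤ D)
    (h : x ≤ (C * ((δ : ℝ) + 1) * D * L) ^ (C * (δ + 1) ^ N)) :
    x ≤ ((C * (δ + 1) ^ (N + 1) + 2 : ℕ) * D * L) ^ (C * (δ + 1) ^ (N + 1) + 2) := by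
  have d1 : (1 : ℝ) ≤ D := by exact_mod_cast hD
  have p : (1 : ℝ) / 2 ≤ D * L := by nlinarith
  have a : C * (δ + 1) ≤ C * (δ + 1) ^ (N + 1) :=
    Nat.mul_le_mul_left _ (Nat.le_self_pow N.succ_ne_zero _)
  have b : C * (δ + 1) ^ N ≤ C * (δ + 1) ^ (N + 1) :=
    Nat.mul_le_mul_left _ (Nat.pow_le_pow_right δ.succ_pos N.le_succ)
  generalize C * (δ + 1) ^ (N + 1) = M at a b
  have a' : (C : ℝ) * (δ + 1) ≤ M := by exact_mod_cast a
  have M0 : (0 : ℝ) ≤ M := M.cast_nonneg
  push_cast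
  rw [mul_assoc] at h ⊢
  refine h.trans ((pow_le_pow_left₀ (by positivity) ?_ _).trans (pow_le_pow_right₀ ?_ (by omega)))
  · exact mul_le_mul_of_nonneg_right (by linarith) (by linarith)
  · nlinarith

/-- extension by zero -/
def finX {ν R : Type*} [Zero R] (W : ν × ν → R) : Option ν × Option ν → R
  | (some i, some j) => W (i, j)
  | _ => 0

/-- the degree property puts the algebraic monodromy group in the envelope -/
theorem finC_env {σ ν E : Type} [Fintype σ] [Fintype ν] [DecidableEq ν] [Field E] [Algebra E ℂ]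
    {U : Set (σ → ℂ)} {P : (σ → ℂ) → Matrix (Option ν) (Option ν) ℂ} {x : σ → E} {z : E} {d : ℕ}
    {s : σ → ℂ} {G : Set (Matrix ν ν ℂ)} (hx : (fun l => algebraMap E ℂ (x l)) = s)
    (hz : P s none none = algebraMap E ℂ z) (hU : U ∈ 𝓝 s)
    (h0 : ∀ t ∈ U, ∀ i, P t (some i) none = 0 ∧ P t none (some i) = 0)
    (hd : ((P s).submatrix some some).det ≠ 0) (hG : Cos E ((P s).submatrix some some) G)
    (h : GoodRM U P (single none none 1) (1 - single none none 1) d x (single none none z)) :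
    Mf P (single none none 1) some s ⊆ Env d G := by
  intro g hg
  refine hG.env hd hg.1 fun F hF F0 => ?_
  obtain ⟨H, h1, h2⟩ := h (MvPolynomial.rename (Prod.map some some) F)
    ((MvPolynomial.totalDegree_rename_le _ _).trans hF) (by
      rw [MvPolynomial.aeval_rename, hx, ← F0]
      congr 2
      funext a
      simp [good_sz])
  have key : ∀ (t : σ → ℂ) (Z : Option ν × Option ν → ℂ) (W : ν × ν → ℂ),
      MvPolynomial.eval (Sum.elim t (Sum.elim Z W)) (MvPolynomial.aeval (Sum.elim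
        (fun l => MvPolynomial.X (.inl l)) (Sum.elim (fun a => MvPolynomial.X (.inr (.inl a)))
          (finX fun a => MvPolynomial.X (.inr (.inr a))))) H) =
        MvPolynomial.aeval (Sum.elim t (Sum.elim Z (finX W))) H := fun t Z W => by
    refine (MvPolynomial.comp_aeval_apply _
      ((MvPolynomial.aeval (Sum.elim t (Sum.elim Z W))).restrictScalars E) H).trans ?_
    congr 2
    funext a
    rcases a with a | a | ⟨_ | i, _ | j⟩ <;> simp [finX]
  have e := hg.2 _ (by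
    filter_upwards [hU] with t ht
    rw [key, ← h1 U P .base t ht]
    congr 4
    funext a
    rcases a with ⟨_ | i, _ | j⟩ <;> simp [finX, good_sz, h0 t ht])
  rw [key] at e
  have e2 := congrArg
    (MvPolynomial.aeval (finX fun a => ((P s).submatrix some some * g) a.1 a.2)) h2
  rw [MvPolynomial.comp_aeval_apply, MvPolynomial.aeval_rename] at e2
  refine Eq.trans (e2.symm.trans ?_) e
  congr 2
  funext a
  have hs := h0 s (mem_of_mem_nhds hU)
  rcases a with a | ⟨_ | i, _ | j⟩ | a <;> simp [congrFun hx, hz, hs]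

theorem cntC {σ K ν : Type} [Fintype σ] [DecidableEq σ] [Field K] [NumberField K] [Algebra K ℂ]
    [Fintype ν] [DecidableEq ν] {n m r : ℕ} {T : MvPolynomial σ K} {q : (MvPolynomial σ K)[X]}
    {B : σ → Matrix ν ν (MvPolynomial σ K)[X]} {f : MvPolynomial (Fin (n + 1)) (MvPolynomial σ K)[X]}
    {A : ν → MvPolynomial (Fin (n + 1)) (MvPolynomial σ K)[X]} {a : ℂ}
    (h : FamH T q r B f m A a) : ∃ C : ℕ, ∀ (U : Set (σ → ℂ))
      (P : (σ → ℂ) → Matrix (Option ν) (Option ν) ℂ), IsOpen U → IsPreconnected U →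
      PerH T q B f m A a U P → (ConnRM U P fun t => P t * single none none 1) →
      ∀ (j : ℕ) (w : ν → ℕ) (J : Matrix ν ν ℝ), (Fintype.card σ = 1 ∨ Pol T U P J j w) →
      ∀ (D : ℕ) (H : ℝ), 2 ≤ H → ∀ S : Finset ((σ → ℂ) × ℂ),
        (∀ s ∈ S, MvPolynomial.aeval s.1 T ≠ 0 ∧
          (∀ l, ∃ p : ℤ[X], p ≠ 0 ∧ (∀ i, |(p.coeff i : ℝ)| ≤ H) ∧ aeval (s.1 l) p = 0) ∧
          ∃ U' P', ContM U P U' P' ∧ s.1 ∈ U' ∧ P' s.1 none none = s.2 ∧
            (Fintype.card σ = 1 ∨ HGen j w (fun t => (P' t).submatrix some some) s.1 ∧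
              ∀ s' ∈ S, WS T U P (single none none 1) some j w P' s.1
                (s'.1, single none none s'.2) → s' = s) ∧
            ∃ (E : IntermediateField K ℂ) (x : σ → E) (z : E), (∀ l, (x l : ℂ) = s.1 l) ∧
              (z : ℂ) = s.2 ∧ FiniteDimensional ℚ E ∧ Module.finrank ℚ E ≤ D ∧
              ∃ G, Cos E ((P' s.1).submatrix some some) G ∧
                ∃ X ∈ Lg (Mf P' (single none none 1) some s.1),
                ∃ Y ∈ Lg (Mf P' (single none none 1) some s.1),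
                ∃ Z ∈ Lg (Mf P' (single none none 1) some s.1), ⁅⁅X, Y⁆, Z⁆ ∉ Lg G) →
        (S.card : ℝ) ≤ (C * D * Real.log H) ^ C := by
  obtain ⟨C, N, hC⟩ := cntH h
  obtain ⟨d, hd⟩ := env ν
  refine ⟨C * (d + 1) ^ (N + 1) + 2, fun U P ho hU hP hc j w J hJ D H H2 S hS => ?_⟩
  rcases S.eq_empty_or_nonempty with rfl | ⟨s₀, m₀⟩
  · have := Real.log_nonneg (one_le_two.trans H2)
    rw [Finset.card_empty, Nat.cast_zero]
    positivity
  refine finC_num (le_trans (by linarith [Real.log_two_gt_d9]) (Real.log_le_log two_pos H2)) ?_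
    (hC d U P ho hU hP hc j w J hJ D H H2 S fun s hs => ?_)
  · obtain ⟨-, -, -, -, -, -, -, -, E, -, -, -, -, _, hd, -⟩ := hS s₀ m₀
    exact le_trans Module.finrank_pos hd
  obtain ⟨e, b, U', P', k, hx, hz, hM, E, x, z, x1, x2, x3, x4, G, hG, X, hX, Y, hY, Z, hZ, no⟩ :=
    hS s hs
  refine ⟨e, b, U', P', k, hx, hz, hM, E, x, z, x1, x2, x3, x4, fun g => no ?_⟩
  obtain ⟨o, -, F⟩ := hP.1.cont ho hU k
  have m := finC_env (funext x1) (hz.trans x2.symm) (o.mem_nhds hx) (fun t ht => (F t ht).2.1)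
    ((h.int2 ho hU hP (cont_ne k ⟨_, hx⟩)).dt U' P' k _ hx e) hG g
  exact hd G hG.ag X (fun t => m (hX t)) Y (fun t => m (hY t)) Z fun t => m (hZ t)

end Pool.Agent.Lib.MP_5591bc_ag.Jo
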