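import Pool.Agent.Lib.MP_5591bc_ag.Jo.Set

/-! The fixed field of the automorphisms of the complex numbers. -/

namespace Pool.Agent.Lib.MP_5591bc_ag.Jo

open MvPolynomial Matrix

noncomputable section

/-- an automorphism of the polynomial ring on a transcendence basis extends -/
theorem fix_ext {K ι : Type*} [Field K] [Algebra K ℂ] {v : ι → ℂ} (hv : IsTranscendenceBasis K v)
    (e : MvPolynomial ι K ≃+* MvPolynomial ι K) :
    ∃ σ : ℂ ≃+* ℂ, ∀ p, σ (aeval v p) = aeval v (e p) := by
  let _ := IsAlgClosed.isAlgClosure_of_transcendence_basis v hv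
  let f : Algebra.adjoin K (Set.range v) ≃+* Algebra.adjoin K (Set.range v) :=
    (hv.1.aevalEquiv.symm.toRingEquiv.trans e).trans hv.1.aevalEquiv.toRingEquiv
  refine ⟨IsAlgClosure.equivOfEquiv ℂ ℂ f, fun p => ?_⟩
  rw [← hv.1.algebraMap_aevalEquiv p, IsAlgClosure.equivOfEquiv_algebraMap,
    ← hv.1.algebraMap_aevalEquiv (e p)]
  congr 1
  change hv.1.aevalEquiv (e (hv.1.aevalEquiv.symm (hv.1.aevalEquiv p))) = _
  rw [AlgEquiv.symm_apply_apply]

/-- a fixed element is algebraic -/
theorem fix_alg {E : Type*} [Field E] [Algebra E ℂ] {x : ℂ} (h : ∀ σ : ℂ ≃ₐ[E] ℂ, σ x = x) :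
    IsAlgebraic E x := by
  by_contra hx
  have h1 : AlgebraicIndepOn E id ({x} : Set ℂ) := by
    have : Transcendental E x := hx
    exact (algebraicIndependent_unique_type_iff (R := E)
      (x := fun y : ({x} : Set ℂ) => id y.1)).2 this
  obtain ⟨t, ht, hv⟩ := exists_isTranscendenceBasis_superset h1
  let n : MvPolynomial t E →ₐ[E] MvPolynomial t E := aeval fun i => -X i
  have hn : n.comp n = AlgHom.id E _ := by
    refine MvPolynomial.algHom_ext fun i => ?_
    simp [n]
  let e : MvPolynomial t E ≃ₐ[E] MvPolynomial t E := AlgEquiv.ofAlgHom n n hn hn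
  obtain ⟨σ, hσ⟩ := fix_ext hv e.toRingEquiv
  have hc : ∀ y : E, σ (algebraMap E ℂ y) = algebraMap E ℂ y := fun y => by
    have := hσ (C y)
    rw [aeval_C] at this
    rw [this]
    change aeval _ (n (C y)) = _
    simp [n]
  have h2 := hσ (X ⟨x, ht rfl⟩)
  have h3 : σ x = x := h { σ with commutes' := hc }
  rw [aeval_X] at h2
  change σ x = aeval _ (n (X _)) at h2
  simp only [n, aeval_X, map_neg] at h2
  have h4 : x = 0 := by linear_combination (1 / 2 : ℂ) * (h2 - h3)
  exact hx (h4 ▸ isAlgebraic_zero)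

theorem fix_ex {E : Type*} [Field E] [Algebra E ℂ] {x : ℂ} (h : ∀ σ : ℂ ≃ₐ[E] ℂ, σ x = x) :
    ∃ y : E, algebraMap E ℂ y = x := by
  have : CharZero E := (algebraMap E ℂ).charZero
  let K := algebraicClosure E ℂ
  have hx : x ∈ K := mem_algebraicClosure_iff.2 (fix_alg h)
  have : IsGalois E K := inferInstance
  obtain ⟨t, hv⟩ := exists_isTranscendenceBasis K ℂ
  have hb : (⟨x, hx⟩ : K) ∈ (⊥ : IntermediateField E K) := by
    refine (InfiniteGalois.mem_bot_iff_fixed _).2 fun τ => ?_
    obtain ⟨σ, hσ⟩ := fix_ext hv (mapEquiv t τ.toRingEquiv)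
    have hk : ∀ k : K, σ (k : ℂ) = (τ k : ℂ) := fun k => by
      have := hσ (C k)
      rw [aeval_C, mapEquiv_apply, map_C, aeval_C] at this
      exact this
    have hc : ∀ y : E, σ (algebraMap E ℂ y) = algebraMap E ℂ y := fun y => by
      have := hk (algebraMap E K y)
      rw [τ.commutes] at this
      exact this
    have h3 : σ x = x := h { σ with commutes' := hc }
    exact Subtype.ext ((hk ⟨x, hx⟩).symm.trans h3)
  obtain ⟨y, hy⟩ := IntermediateField.mem_bot.1 hb
  exact ⟨y, congrArg Subtype.val hy⟩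

end

end Pool.Agent.Lib.MP_5591bc_ag.Jo
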