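import Pool.Agent.Lib.MP_5591bc_ag.Jo.Set

/-! Elements of a finite group near the unit commute. -/

namespace Pool.Agent.Lib.MP_5591bc_ag.Jo

open MvPolynomial Matrix

noncomputable section

variable {R : Type*} [NormedRing R] [NormedAlgebra ℂ R] {Γ : Set R} {a b c c' : R}

/-- the mean of the powers -/
def jorAp (N : ℕ) (y : R) : R := (N : ℂ)⁻¹ • ∑ k ∈ Finset.range N, y ^ k

theorem jorA_mul {N : ℕ} {y : R} (hy : y ^ N = 1) : y * jorAp N y = jorAp N y := by
  have h := mul_geom_sum y N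
  rw [hy, sub_self, sub_mul, one_mul, sub_eq_zero] at h
  rw [jorAp, mul_smul_comm, h]

theorem jorA_comm {N : ℕ} {x y : R} (h : Commute x y) : Commute x (jorAp N y) :=
  (Commute.sum_right _ _ _ fun k _ => h.pow_right k).smul_right _

theorem jorA_idem {N : ℕ} (N0 : 0 < N) {y : R} (hy : y ^ N = 1) :
    jorAp N y * jorAp N y = jorAp N y := by
  have h : ∀ k : ℕ, y ^ k * jorAp N y = jorAp N y := by
    intro k
    induction k with
    | zero => simp
    | succ k ih => rw [pow_succ, mul_assoc, jorA_mul hy, ih]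
  have hN : (N : ℂ) ≠ 0 := by exact_mod_cast N0.ne'
  calc jorAp N y * jorAp N y
      = ((N : ℂ)⁻¹ • ∑ k ∈ Finset.range N, y ^ k) * jorAp N y := rfl
    _ = jorAp N y := by
      rw [smul_mul_assoc, Finset.sum_mul, Finset.sum_congr rfl fun k _ => h k, Finset.sum_const,
        Finset.card_range, ← Nat.cast_smul_eq_nsmul ℂ, smul_smul, inv_mul_cancel₀ hN, one_smul]

theorem jorA_norm {N : ℕ} (N0 : 0 < N) {y : R} (y1 : ‖y‖ ≤ 1) (n1 : ‖(1 : R)‖ ≤ 1) :
    ‖jorAp N y‖ ≤ 1 := by
  have h : ∀ k : ℕ, ‖y ^ k‖ ≤ 1 := by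
    intro k
    induction k with
    | zero => simpa using n1
    | succ k ih =>
      rw [pow_succ]
      exact (norm_mul_le _ _).trans (mul_le_one₀ ih (norm_nonneg _) y1)
  have hN : (0 : ℝ) < N := by exact_mod_cast N0
  have h2 : ‖∑ k ∈ Finset.range N, y ^ k‖ ≤ N :=
    (norm_sum_le _ _).trans ((Finset.sum_le_sum fun k _ => h k).trans (by simp))
  rw [jorAp, norm_smul, norm_inv, Complex.norm_natCast]
  exact (mul_le_mul_of_nonneg_left h2 (by positivity)).trans (inv_mul_cancel₀ hN.ne').le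

theorem jorA_sum {N : ℕ} (N0 : 0 < N) {z : ℂ} (hz : IsPrimitiveRoot z N) (x : R) :
    ∑ i ∈ Finset.range N, jorAp N (z ^ i • x) = 1 := by
  have hN : (N : ℂ) ≠ 0 := by exact_mod_cast N0.ne'
  simp only [jorAp]
  rw [← Finset.smul_sum, Finset.sum_comm, Finset.sum_eq_single 0]
  · simp only [pow_zero, Finset.sum_const, Finset.card_range]
    rw [← Nat.cast_smul_eq_nsmul ℂ, smul_smul, inv_mul_cancel₀ hN, one_smul]
  · intro k hk k0
    have h1 : z ^ k - 1 ≠ 0 :=
      sub_ne_zero.2 (hz.pow_ne_one_of_pos_of_lt k0 (Finset.mem_range.1 hk))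
    have h2 := mul_geom_sum (z ^ k) N
    rw [← pow_mul, mul_comm k N, pow_mul, hz.pow_eq_one, one_pow, sub_self] at h2
    have h3 := (mul_eq_zero.1 h2).resolve_left h1
    have h4 : ∀ i : ℕ, (z ^ i • x) ^ k = (z ^ k) ^ i • x ^ k := by
      intro i
      rw [smul_pow, ← pow_mul, ← pow_mul, mul_comm]
    simp only [h4]
    rw [← Finset.sum_smul, h3, zero_smul]
  · intro h
    exact absurd (Finset.mem_range.2 N0) h

theorem jorA_conj {N : ℕ} (hc : c * c' = 1) (hc' : c' * c = 1) (y : R) :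
    c * jorAp N y * c' = jorAp N (c * y * c') := by
  have h : ∀ k : ℕ, c * y ^ k * c' = (c * y * c') ^ k := by
    intro k
    induction k with
    | zero => simpa using hc
    | succ k ih =>
      rw [pow_succ, pow_succ, ← ih]
      calc c * (y ^ k * y) * c' = c * y ^ k * (c' * c) * y * c' := by
            rw [hc']; simp only [mul_assoc, mul_one]
        _ = _ := by simp only [mul_assoc]
  simp only [jorAp, mul_smul_comm, smul_mul_assoc, Finset.mul_sum, Finset.sum_mul, h]

theorem jor_idem {N : ℕ} (N0 : 0 < N) (ha : a ^ N = 1) (a1 : ‖a‖ ≤ 1) (n1 : ‖(1 : R)‖ ≤ 1)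
    (hc : c * c' = 1) (hc' : c' * c = 1) (c1 : ‖c'‖ ≤ 1) (h1 : ‖c - 1‖ < 1)
    (h : Commute a (c * a * c')) : Commute a c := by
  have hz := Complex.isPrimitiveRoot_exp N N0.ne'
  generalize Complex.exp (2 * Real.pi * Complex.I / N) = z at hz
  have zn : ∀ i : ℕ, ‖z ^ i‖ = 1 := fun i => by
    rw [norm_pow, hz.norm'_eq_one N0.ne', one_pow]
  have z0 : ∀ i : ℕ, z ^ i ≠ 0 := fun i h => by simpa [h] using zn i
  have hp : ∀ i : ℕ, (z ^ i • a) ^ N = 1 := fun i => by
    rw [smul_pow, ← pow_mul, mul_comm, pow_mul, hz.pow_eq_one, one_pow, ha, one_smul]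
  obtain ⟨p, hp'⟩ : ∃ p : ℕ → R, ∀ i, p i = jorAp N (z ^ i • a) := ⟨_, fun _ => rfl⟩
  have pn : ∀ i, ‖p i‖ ≤ 1 := fun i => by
    rw [hp']
    exact jorA_norm N0 (by rw [norm_smul, zn, one_mul]; exact a1) n1
  have pl : ∀ i, a * p i = (z ^ i)⁻¹ • p i := fun i => by
    have := jorA_mul (hp i)
    rw [← hp', smul_mul_assoc] at this
    rw [eq_inv_smul_iff₀ (z0 i), this]
  have pr : ∀ i, p i * a = (z ^ i)⁻¹ • p i := fun i => by
    rw [← pl, hp']
    exact (jorA_comm ((Commute.refl a).smul_right _)).symm.eq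
  have pp : ∀ i, p i * p i = p i := fun i => by rw [hp']; exact jorA_idem N0 (hp i)
  have po : ∀ i j, (z ^ i)⁻¹ ≠ (z ^ j)⁻¹ → p i * p j = 0 := fun i j hij => by
    have h2 : ((z ^ i)⁻¹ - (z ^ j)⁻¹) • (p i * p j) = 0 := by
      rw [sub_smul, ← smul_mul_assoc, ← pr, ← mul_smul_comm, ← pl, mul_assoc, sub_self]
    exact (smul_eq_zero.1 h2).resolve_left (sub_ne_zero.2 hij)
  have pc : ∀ i j, Commute (p i) (c * p j * c') := fun i j => by
    rw [hp', hp', jorA_conj hc hc']
    refine jorA_comm (jorA_comm ?_).symm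
    rw [mul_smul_comm, smul_mul_assoc]
    exact (h.symm.smul_left _).smul_right _
  have pe : ∀ i j, (z ^ i)⁻¹ ≠ (z ^ j)⁻¹ → p i * c * p j = 0 := fun i j hij => by
    obtain ⟨e, he⟩ : ∃ e, e = p i * (c * p j * c') := ⟨_, rfl⟩
    have q : (c * p j * c') * (c * p j * c') = c * p j * c' := by
      calc _ = c * (p j * (c' * c) * p j) * c' := by simp only [mul_assoc]
        _ = _ := by rw [hc', mul_one, pp]
    have e2 : e * e = e := by
      calc e * e = p i * ((c * p j * c') * p i) * (c * p j * c') := by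
            rw [he]; simp only [mul_assoc]
        _ = (p i * p i) * ((c * p j * c') * (c * p j * c')) := by
            rw [← (pc i j).eq]; simp only [mul_assoc]
        _ = e := by rw [pp, q, he]
    have e3 : e = p i * (c - 1) * p j * c' := by
      rw [mul_sub, mul_one, sub_mul, po i j hij, sub_zero, he]; simp only [mul_assoc]
    have e4 : ‖e‖ < 1 := by
      have k1 : ‖p i * (c - 1)‖ ≤ ‖c - 1‖ :=
        (norm_mul_le _ _).trans (mul_le_of_le_one_left (norm_nonneg _) (pn i))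
      have k2 : ‖p i * (c - 1) * p j‖ ≤ ‖p i * (c - 1)‖ :=
        (norm_mul_le _ _).trans (mul_le_of_le_one_right (norm_nonneg _) (pn j))
      have k3 : ‖p i * (c - 1) * p j * c'‖ ≤ ‖p i * (c - 1) * p j‖ :=
        (norm_mul_le _ _).trans (mul_le_of_le_one_right (norm_nonneg _) c1)
      rw [e3]; linarith
    have e5 : ‖e‖ ≤ ‖e‖ * ‖e‖ := by
      have := norm_mul_le e e
      rwa [e2] at this
    have e6 : e = 0 := by
      by_contra e0
      have := norm_pos_iff.2 e0
      nlinarith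
    calc p i * c * p j = e * c := by
          rw [he]; simp only [mul_assoc, hc', mul_one]
      _ = 0 := by rw [e6, zero_mul]
  have s1 : ∑ i ∈ Finset.range N, p i = 1 := by simp only [hp']; exact jorA_sum N0 hz a
  have key : ∀ i j, p i * (a * c - c * a) * p j = 0 := fun i j => by
    have h2 : p i * (a * c - c * a) * p j = ((z ^ i)⁻¹ - (z ^ j)⁻¹) • (p i * c * p j) := by
      rw [mul_sub, sub_mul, ← mul_assoc, pr, mul_assoc (p i) (c * a), mul_assoc c a, pl, sub_smul]
      simp only [mul_smul_comm, smul_mul_assoc, mul_assoc]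
    rw [h2]
    by_cases hij : (z ^ i)⁻¹ = (z ^ j)⁻¹
    · rw [hij, sub_self, zero_smul]
    · rw [pe i j hij, smul_zero]
  have fin : a * c - c * a = 0 := by
    calc a * c - c * a = (∑ i ∈ Finset.range N, p i) * (a * c - c * a) *
          ∑ j ∈ Finset.range N, p j := by rw [s1, one_mul, mul_one]
      _ = 0 := by
        rw [Finset.sum_mul, Finset.sum_mul_sum]
        exact Finset.sum_eq_zero fun i _ => Finset.sum_eq_zero fun j _ => key i j
  exact sub_eq_zero.1 fin

theorem jorA_ord {R : Type*} [Monoid R] {Γ : Set R} {a : R} (h : FG Γ) (ha : a ∈ Γ) :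
    ∃ N, 0 < N ∧ a ^ N = 1 := by
  have hk : ∀ k : ℕ, a ^ k ∈ Γ := by
    intro k
    induction k with
    | zero => simpa using h.one
    | succ k ih => rw [pow_succ]; exact h.mul _ ih _ ha
  obtain ⟨i, j, hij, e⟩ := h.fin.exists_lt_map_eq_of_forall_mem hk
  obtain ⟨x, -, -, hx⟩ := h.inv _ (hk i)
  refine ⟨j - i, Nat.sub_pos_of_lt hij, ?_⟩
  calc a ^ (j - i) = x * (a ^ i * a ^ (j - i)) := by rw [← mul_assoc, hx, one_mul]
    _ = 1 := by rw [← pow_add, Nat.add_sub_cancel' hij.le, ← e, hx]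

theorem jor_comm (h : FG Γ) (hn : ∀ g ∈ Γ, ‖g‖ ≤ 1) (ha : a ∈ Γ) (hb : b ∈ Γ)
    (a1 : ‖a - 1‖ < 1 / 2) (b1 : ‖b - 1‖ < 1) : a * b = b * a := by
  obtain ⟨N, N0, hN⟩ := jorA_ord h ha
  obtain ⟨a', ha', aa, aa'⟩ := h.inv a ha
  have main : ∀ n : ℕ, ∀ b ∈ Γ, ‖b - 1‖ < 1 → {g ∈ Γ | ‖g - 1‖ < ‖b - 1‖}.ncard = n →
      a * b = b * a := by
    intro n
    induction n using Nat.strong_induction_on with
    | _ n ih =>
      intro b hb b1 hn'
      by_cases b0 : b - 1 = 0
      · rw [sub_eq_zero.1 b0, mul_one, one_mul]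
      obtain ⟨b', hb', bb, bb'⟩ := h.inv b hb
      obtain ⟨d, hd⟩ : ∃ d, d = a * (b * a' * b') := ⟨_, rfl⟩
      have dΓ : d ∈ Γ := hd ▸ h.mul _ ha _ (h.mul _ (h.mul _ hb _ ha') _ hb')
      have d1 : d - 1 = ((a - 1) * (b - 1) - (b - 1) * (a - 1)) * a' * b' := by
        have : (a - 1) * (b - 1) - (b - 1) * (a - 1) = a * b - b * a := by noncomm_ring
        rw [this, sub_mul, sub_mul, mul_assoc b a a', aa, mul_one, bb, hd]
        simp only [mul_assoc]
      have bp := norm_pos_iff.2 b0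
      have d2 : ‖d - 1‖ < ‖b - 1‖ := by
        have k1 := norm_sub_le ((a - 1) * (b - 1)) ((b - 1) * (a - 1))
        have k2 := norm_mul_le (a - 1) (b - 1)
        have k3 := norm_mul_le (b - 1) (a - 1)
        have k4 : ‖((a - 1) * (b - 1) - (b - 1) * (a - 1)) * a'‖ ≤
            ‖(a - 1) * (b - 1) - (b - 1) * (a - 1)‖ :=
          (norm_mul_le _ _).trans (mul_le_of_le_one_right (norm_nonneg _) (hn _ ha'))
        have k5 : ‖((a - 1) * (b - 1) - (b - 1) * (a - 1)) * a' * b'‖ ≤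
            ‖((a - 1) * (b - 1) - (b - 1) * (a - 1)) * a'‖ :=
          (norm_mul_le _ _).trans (mul_le_of_le_one_right (norm_nonneg _) (hn _ hb'))
        rw [d1]
        nlinarith
      have lt : {g ∈ Γ | ‖g - 1‖ < ‖d - 1‖}.ncard < n := by
        rw [← hn']
        refine Set.ncard_lt_ncard ⟨fun g hg => ⟨hg.1, hg.2.trans d2⟩, fun k => ?_⟩
          (h.fin.subset fun g hg => hg.1)
        exact lt_irrefl _ (k ⟨dΓ, d2⟩).2
      have c1 := ih _ lt d dΓ (d2.trans b1) rfl
      have c2 : a * (b * a' * b') = (b * a' * b') * a := by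
        calc a * (b * a' * b') = a' * (a * d) := by rw [← mul_assoc a', aa', one_mul, hd]
          _ = (a' * a) * ((b * a' * b') * a) := by rw [c1, hd]; simp only [mul_assoc]
          _ = _ := by rw [aa', one_mul]
      have i1 : (b * a * b') * (b * a' * b') = 1 := by
        calc _ = b * (a * (b' * b) * a') * b' := by simp only [mul_assoc]
          _ = 1 := by rw [bb', mul_one, aa, mul_one, bb]
      have i2 : (b * a' * b') * (b * a * b') = 1 := by
        calc _ = b * (a' * (b' * b) * a) * b' := by simp only [mul_assoc]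
          _ = 1 := by rw [bb', mul_one, aa', mul_one, bb]
      have c3 : Commute a (b * a * b') := by
        calc a * (b * a * b') = ((b * a * b') * (b * a' * b')) * a * (b * a * b') := by
              rw [i1, one_mul]
          _ = (b * a * b') * (a * (b * a' * b')) * (b * a * b') := by
              rw [c2]; simp only [mul_assoc]
          _ = (b * a * b') * a * ((b * a' * b') * (b * a * b')) := by simp only [mul_assoc]
          _ = (b * a * b') * a := by rw [i2, mul_one]
      exact (jor_idem N0 hN (hn a ha) (hn 1 h.one) bb bb' (hn _ hb') b1 c3).eq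
  exact main _ b hb b1 rfl

end

end Pool.Agent.Lib.MP_5591bc_ag.Jo
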