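import Pool.Agent.Lib.MP_5591bc_ag.Jo.Tan
import Pool.Agent.Lib.MP_5591bc_ag.Jo.Lin

/-! The equations of the normaliser. -/

namespace Pool.Agent.Lib.MP_5591bc_ag.Jo

open MvPolynomial Matrix

noncomputable section

variable {ν A B V : Type*} [Fintype ν] [DecidableEq ν] [CommRing A] [Algebra ℂ A] [CommRing B]
  [Algebra ℂ B] [AddCommGroup V] [Module ℂ V] {G : Set (Matrix ν ν ℂ)} {x y W : Matrix ν ν A}
  {a b g X Y Z : Matrix ν ν ℂ} {T : Submodule ℂ (Matrix ν ν ℂ)} {d : ℕ}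

theorem pol_det {σ : Type*} (M : Matrix ν ν (MvPolynomial σ ℂ))
    (h : ∀ i j, (M i j).totalDegree ≤ 1) : M.det.totalDegree ≤ Fintype.card ν := by
  rw [Matrix.det_apply']
  refine (totalDegree_finsetSum _ _).trans (Finset.sup_le fun s _ => ?_)
  refine (totalDegree_mul _ _).trans ?_
  have e : (((Equiv.Perm.sign s : ℤˣ) : ℤ) : MvPolynomial σ ℂ) = C (((Equiv.Perm.sign s : ℤˣ) : ℤ) : ℂ) :=
    (map_intCast (C : ℂ →+* MvPolynomial σ ℂ) _).symm
  rw [e, totalDegree_C, zero_add]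
  refine (totalDegree_finsetProd _ _).trans ?_
  refine (Finset.sum_le_sum fun i _ => h (s i) i).trans ?_
  simp

theorem pol_adj (i j : ν) :
    ((mvPolynomialX ν ν ℂ).adjugate i j).totalDegree ≤ Fintype.card ν := by
  rw [adjugate_apply]
  refine pol_det _ fun k l => ?_
  rw [updateRow_apply]
  split_ifs with e
  · rw [Pi.single_apply]
    split_ifs
    · simp
    · simp
  · rw [mvPolynomialX_apply, totalDegree_X]

theorem pol_sum (x : Matrix ν ν ℂ) : x = ∑ a : ν × ν, x a.1 a.2 • single a.1 a.2 (1 : ℂ) := by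
  conv_lhs => rw [matrix_eq_sum_single x]
  rw [Fintype.sum_prod_type]
  simp

theorem pol_lr (x y : Matrix ν ν ℂ) : LinearMap.mulLeftRight ℂ (x, y) =
    ∑ a : ν × ν, ∑ b : ν × ν, (x a.1 a.2 * y b.1 b.2) •
      LinearMap.mulLeftRight ℂ (single a.1 a.2 (1 : ℂ), single b.1 b.2 (1 : ℂ)) := by
  refine LinearMap.ext fun Z => ?_
  simp only [LinearMap.sum_apply, LinearMap.smul_apply, LinearMap.mulLeftRight_apply]
  conv_lhs => rw [pol_sum x, pol_sum y]
  simp only [Finset.sum_mul, Finset.mul_sum, Matrix.smul_mul, Matrix.mul_smul, smul_smul]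
  rw [Finset.sum_comm]
  refine Finset.sum_congr rfl fun a _ => Finset.sum_congr rfl fun b _ => ?_
  rw [mul_comm (x a.1 a.2)]

theorem pol_ev_adj (x : Matrix ν ν ℂ) (i j : ν) :
    ev x ((mvPolynomialX ν ν ℂ).adjugate i j) = x.adjugate i j := by
  have e := AlgHom.map_adjugate (ev x) (mvPolynomialX ν ν ℂ)
  have e2 : (ev x).mapMatrix (mvPolynomialX ν ν ℂ) = x := by
    ext k l
    simp [mvPolynomialX_apply]
  rw [e2] at e
  exact congrFun (congrFun e i) j

theorem pol_inv (x : Matrix ν ν ℂ) (hx : x.det ≠ 0) (i j : ν) :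
    x.adjugate i j = x.det * x⁻¹ i j := by
  rw [Matrix.inv_def, Ring.inverse_eq_inv', Matrix.smul_apply, smul_eq_mul, ← mul_assoc,
    mul_inv_cancel₀ hx, one_mul]

theorem ad_pol (μ : Module.End ℂ (Matrix ν ν ℂ) →ₗ[ℂ] ℂ) : ∃ F : MvPolynomial (ν × ν) ℂ,
    F.totalDegree ≤ Fintype.card ν + 1 ∧
      ∀ x : Matrix ν ν ℂ, x.det ≠ 0 → ev x F = x.det * μ (Ad x) := by
  refine ⟨∑ a : ν × ν, ∑ b : ν × ν, C (μ (LinearMap.mulLeftRight ℂ
    (single a.1 a.2 (1 : ℂ), single b.1 b.2 (1 : ℂ)))) *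
      (MvPolynomial.X a * (mvPolynomialX ν ν ℂ).adjugate b.1 b.2), ?_, fun x hx => ?_⟩
  · refine (totalDegree_finsetSum _ _).trans (Finset.sup_le fun a _ => ?_)
    refine (totalDegree_finsetSum _ _).trans (Finset.sup_le fun b _ => ?_)
    refine (totalDegree_mul _ _).trans ?_
    rw [totalDegree_C, zero_add]
    refine (totalDegree_mul _ _).trans ?_
    rw [totalDegree_X, add_comm]
    exact Nat.add_le_add_right (pol_adj _ _) 1
  · rw [Ad, pol_lr]
    simp only [map_sum, map_mul, map_smul, Finset.mul_sum, pol_ev_adj, pol_inv x hx, smul_eq_mul]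
    refine Finset.sum_congr rfl fun a _ => Finset.sum_congr rfl fun b _ => ?_
    simp only [aeval_C, aeval_X, Algebra.algebraMap_self, RingHom.id_apply]
    ring

theorem AG.pres (h : AG G) (hg : g ∈ G) : Pres (Tg G) (Nr (Tg G)) (Ad g) :=
  pres_Ad (h.det hg) fun w hw => by
    rw [Ad_apply]
    exact h.ta_conj (h.mem.1 hg) hw

theorem AG.env_pres (h : AG G) (hd : Fintype.card ν + 1 ≤ d) (hg : g ∈ Env d G) :
    Pres (Tg G) (Nr (Tg G)) (Ad g) := by
  refine pres_Ad hg.1 fun w hw => mem_of_forms fun μ hμ => ?_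
  obtain ⟨F, hF, hv⟩ := ad_pol (μ ∘ₗ LinearMap.applyₗ w)
  have h1 : F ∈ VI G := fun k hk => by
    rw [hv k (h.det hk)]
    have : μ (Ad k w) = 0 := hμ _ ((h.pres hk).1 w hw)
    simp [this]
  have h2 := hg.2 F h1 (hF.trans hd)
  rw [hv g hg.1] at h2
  simpa using (mul_eq_zero.1 h2).resolve_left hg.1

end

end Pool.Agent.Lib.MP_5591bc_ag.Jo
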