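import Pool.Agent.Lib.MP_5591bc_ag.Jo.Set

/-! Points of an algebraic group with values in an algebra. -/

namespace Pool.Agent.Lib.MP_5591bc_ag.Jo

open MvPolynomial Matrix

noncomputable section

variable {ν A B V : Type*} [Fintype ν] [DecidableEq ν] [CommRing A] [Algebra ℂ A] [CommRing B]
  [Algebra ℂ B] [AddCommGroup V] [Module ℂ V] {G : Set (Matrix ν ν ℂ)} {x y W : Matrix ν ν A}
  {a b g X Y Z : Matrix ν ν ℂ} {T : Submodule ℂ (Matrix ν ν ℂ)} {d : ℕ}

theorem AG.det (h : AG G) (hg : g ∈ G) : g.det ≠ 0 := by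
  obtain ⟨I, rfl⟩ := h.eq
  exact hg.1

theorem AG.inv (h : AG G) (hg : g ∈ G) : g⁻¹ ∈ G := by
  have := h.div 1 h.one g hg
  rwa [Matrix.one_mul] at this

theorem AG.mul (h : AG G) (ha : a ∈ G) (hb : b ∈ G) : a * b ∈ G := by
  have := h.div a ha b⁻¹ (h.inv hb)
  rwa [Matrix.nonsing_inv_nonsing_inv b (isUnit_iff_ne_zero.2 (h.det hb))] at this

theorem AG.mem (h : AG G) : g ∈ G ↔ Pt G g := by
  refine ⟨fun hg => ⟨isUnit_iff_ne_zero.2 (h.det hg), fun F hF => hF g hg⟩, fun hg => ?_⟩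
  obtain ⟨I, hI⟩ := h.eq
  have k : ∀ p ∈ I, p ∈ VI G := fun p hp z hz => by
    rw [hI] at hz
    exact hz.2 p hp
  rw [hI]
  exact ⟨hg.1.ne_zero, fun p hp => hg.2 p (k p hp)⟩

omit [Fintype ν] [DecidableEq ν] in
theorem pts_map (φ : A →ₐ[ℂ] B) (x : Matrix ν ν A) (F : MvPolynomial (ν × ν) ℂ) :
    φ (ev x F) = ev (x.map φ) F := by
  rw [MvPolynomial.comp_aeval_apply]
  rfl

theorem Pt.map (hx : Pt G x) (φ : A →ₐ[ℂ] B) : Pt G (x.map φ) := by
  refine ⟨?_, fun F hF => ?_⟩
  · have := hx.1.map φ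
    rwa [AlgHom.map_det] at this
  · rw [← pts_map, hx.2 F hF, map_zero]

/-- the component of a polynomial along a linear form -/
def pts_comp (φ : A →ₗ[ℂ] ℂ) (P : MvPolynomial (ν × ν) A) : MvPolynomial (ν × ν) ℂ :=
  ∑ m ∈ P.support, monomial m (φ (coeff m P))

omit [DecidableEq ν] in
theorem pts_ev_comp (φ : A →ₗ[ℂ] ℂ) (P : MvPolynomial (ν × ν) A) (y : Matrix ν ν B) :
    ev y (pts_comp φ P) =
      ∑ m ∈ P.support, φ (coeff m P) • ∏ a : ν × ν, y a.1 a.2 ^ m a := by
  rw [pts_comp, map_sum]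
  refine Finset.sum_congr rfl fun m _ => ?_
  rw [aeval_monomial, Finsupp.prod_fintype _ _ (fun _ => pow_zero _), Algebra.smul_def]

theorem Pt.poly (hx : Pt G x) (P : MvPolynomial (ν × ν) A)
    (hP : ∀ g ∈ G, eval (fun a => algebraMap ℂ A (g a.1 a.2)) P = 0) :
    eval (fun a => x a.1 a.2) P = 0 := by
  classical
  let e := Module.Basis.ofVectorSpace ℂ A
  have hc : ∀ φ : A →ₗ[ℂ] ℂ, pts_comp φ P ∈ VI G := fun φ z hz => by
    have := congrArg φ (hP z hz)
    rw [map_zero, eval_eq', map_sum] at this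
    rw [pts_ev_comp, ← this]
    refine Finset.sum_congr rfl fun m _ => ?_
    simp only [← map_pow, ← map_prod]
    rw [mul_comm (coeff m P), ← Algebra.smul_def, map_smul, smul_eq_mul, smul_eq_mul, mul_comm]
  let S := P.support.biUnion fun m => (e.repr (coeff m P)).support
  have hS : ∀ m ∈ P.support, coeff m P = ∑ i ∈ S, e.coord i (coeff m P) • e i := fun m hm => by
    conv_lhs => rw [← e.linearCombination_repr (coeff m P), Finsupp.linearCombination_apply]
    exact Finsupp.sum_of_support_subset _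
      (Finset.subset_biUnion_of_mem (fun m => (e.repr (coeff m P)).support) hm)
      (fun i (c : ℂ) => c • e i) (fun i _ => zero_smul _ _)
  rw [eval_eq', Finset.sum_congr rfl fun m hm => by rw [hS m hm, Finset.sum_mul], Finset.sum_comm]
  refine Finset.sum_eq_zero fun i _ => ?_
  have := hx.2 _ (hc (e.coord i))
  rw [pts_ev_comp] at this
  calc _ = e i * ∑ m ∈ P.support, e.coord i (coeff m P) • ∏ a : ν × ν, x a.1 a.2 ^ m a := by
        rw [Finset.mul_sum]
        refine Finset.sum_congr rfl fun m _ => ?_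
        rw [smul_mul_assoc, mul_smul_comm]
    _ = 0 := by rw [this, mul_zero]

theorem AG.pt_one (h : AG G) : Pt G (1 : Matrix ν ν A) := by
  have := (h.mem.1 h.one).map (Algebra.ofId ℂ A)
  rwa [Matrix.map_one _ (map_zero _) (map_one _)] at this

/-- the generic matrix -/
def pts_gen (ν : Type*) : Matrix ν ν (MvPolynomial (ν × ν) ℂ) :=
  Matrix.of fun i j => MvPolynomial.X (i, j)

omit [Fintype ν] [DecidableEq ν] in
theorem pts_gen_map (x : Matrix ν ν A) : (pts_gen ν).map (ev x) = x := by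
  ext i j
  simp [pts_gen]

/-- the generic adjugate times a fixed matrix -/
def pts_adj (g : Matrix ν ν ℂ) : Matrix ν ν (MvPolynomial (ν × ν) ℂ) :=
  (pts_gen ν).adjugate * g.map (algebraMap ℂ (MvPolynomial (ν × ν) ℂ))

/-- `F (t • adj X * g)` as a polynomial in `t` -/
def pts_Q (g : Matrix ν ν ℂ) (F : MvPolynomial (ν × ν) ℂ) :
    Polynomial (MvPolynomial (ν × ν) ℂ) :=
  aeval (fun a : ν × ν => Polynomial.X * Polynomial.C (pts_adj g a.1 a.2)) F

theorem pts_key (hx : IsUnit x.det) (g : Matrix ν ν ℂ) (F : MvPolynomial (ν × ν) ℂ) :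
    ev x ((pts_Q g F).reverse.eval (pts_gen ν).det) = 0 ↔
      ev (x⁻¹ * g.map (algebraMap ℂ A)) F = 0 := by
  let _ : Invertible (Ring.inverse x.det) :=
    ⟨x.det, Ring.mul_inverse_cancel _ hx, Ring.inverse_mul_cancel _ hx⟩
  have h1 : (ev x : MvPolynomial (ν × ν) ℂ →+* A) (pts_gen ν).det = ⅟(Ring.inverse x.det) := by
    change ev x (pts_gen ν).det = x.det
    rw [AlgHom.map_det, AlgHom.mapMatrix_apply, pts_gen_map]
  have h2 : (pts_adj g).map (ev x) = x.adjugate * g.map (algebraMap ℂ A) := by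
    have := (ev x).map_adjugate (pts_gen ν)
    rw [AlgHom.mapMatrix_apply, AlgHom.mapMatrix_apply, pts_gen_map] at this
    rw [pts_adj, Matrix.map_mul, this]
    congr 1
    ext i j
    simp
  have h3 : (pts_Q g F).eval₂ (ev x : MvPolynomial (ν × ν) ℂ →+* A) (Ring.inverse x.det) =
      ev (x⁻¹ * g.map (algebraMap ℂ A)) F := by
    have := MvPolynomial.comp_aeval_apply (Polynomial.aevalTower (ev x) (Ring.inverse x.det))
      (f := fun a : ν × ν => Polynomial.X * Polynomial.C (pts_adj g a.1 a.2)) F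
    refine Eq.trans ?_ (this.trans ?_)
    · rfl
    · congr 2
      funext a
      rw [map_mul, Polynomial.aevalTower_X, Polynomial.aevalTower_C, Matrix.inv_def,
        Matrix.smul_mul, ← h2]
      rfl
  rw [← h3, ← Polynomial.eval₂_reverse_eq_zero_iff, ← h1, Polynomial.eval₂_at_apply]
  rfl

theorem AG.pt_div (h : AG G) (hx : Pt G x) (hy : Pt G y) : Pt G (x⁻¹ * y) := by
  refine ⟨?_, fun F hF => ?_⟩
  · rw [Matrix.det_mul]
    exact (Matrix.isUnit_nonsing_inv_det x hx.1).mul hy.1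
  · have key : ∀ z : Matrix ν ν A, eval (fun a : ν × ν => z a.1 a.2)
        (ev ((x⁻¹).map C * Matrix.of fun i j => (MvPolynomial.X (i, j) : MvPolynomial (ν × ν) A))
          F) = ev (x⁻¹ * z) F := fun z => by
      have := pts_map ((aeval (R := A) fun a : ν × ν => z a.1 a.2).restrictScalars ℂ)
        ((x⁻¹).map C * Matrix.of fun i j => (MvPolynomial.X (i, j) : MvPolynomial (ν × ν) A)) F
      refine Eq.trans ?_ (this.trans ?_)
      · rfl
      · congr 2
        ext i j
        simp [Matrix.mul_apply]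
    rw [← key]
    refine hy.poly _ fun z hz => ?_
    refine (key (z.map (algebraMap ℂ A))).trans ?_
    rw [← pts_key hx.1]
    refine hx.2 _ fun w hw => ?_
    rw [pts_key (isUnit_iff_ne_zero.2 (h.det hw))]
    exact hF _ (h.mul (h.inv hw) hz)

theorem AG.pt_inv (h : AG G) (hx : Pt G x) : Pt G x⁻¹ := by
  have := h.pt_div hx h.pt_one
  rwa [Matrix.mul_one] at this

theorem AG.pt_mul (h : AG G) (hx : Pt G x) (hy : Pt G y) : Pt G (x * y) := by
  have := h.pt_div (h.pt_inv hx) hy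
  rwa [Matrix.nonsing_inv_nonsing_inv x hx.1] at this

end

end Pool.Agent.Lib.MP_5591bc_ag.Jo
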