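import Pool.Agent.Lib.MP_5591bc_ag.Jo.Defs

/-! Shared definitions for the envelope of an algebraic group. -/

namespace Pool.Agent.Lib.MP_5591bc_ag.Jo

open MvPolynomial Matrix

noncomputable section

variable {ν A V : Type*} [Fintype ν] [DecidableEq ν] [CommRing A] [Algebra ℂ A] [AddCommGroup V]
  [Module ℂ V]

/-- the value of a polynomial at a matrix -/
abbrev ev (x : Matrix ν ν A) : MvPolynomial (ν × ν) ℂ →ₐ[ℂ] A := aeval fun a => x a.1 a.2

/-- an algebraic subgroup of `GL_n(ℂ)` -/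
structure AG (G : Set (Matrix ν ν ℂ)) : Prop where
  eq : ∃ I : Set (MvPolynomial (ν × ν) ℂ), G = {g | g.det ≠ 0 ∧ ∀ p ∈ I, ev g p = 0}
  one : 1 ∈ G
  div : ∀ a ∈ G, ∀ b ∈ G, a * b⁻¹ ∈ G

/-- the ideal of a set of matrices -/
def VI (G : Set (Matrix ν ν ℂ)) : Ideal (MvPolynomial (ν × ν) ℂ) where
  carrier := {F | ∀ g ∈ G, ev g F = 0}
  zero_mem' := fun _ _ => map_zero _
  add_mem' := fun h k g hg => by rw [map_add, h g hg, k g hg, add_zero]
  smul_mem' := fun c F h g hg => by rw [smul_eq_mul, map_mul, h g hg, mul_zero]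

/-- the points with values in an algebra -/
def Pt (G : Set (Matrix ν ν ℂ)) (x : Matrix ν ν A) : Prop := IsUnit x.det ∧ ∀ F ∈ VI G, ev x F = 0

/-- the tangent vectors at the unit with values in an algebra -/
def TA (G : Set (Matrix ν ν ℂ)) (W : Matrix ν ν A) : Prop :=
  ∀ F ∈ VI G, ∑ a : ν × ν, ev (1 : Matrix ν ν ℂ) (pderiv a F) • W a.1 a.2 = 0

/-- the tangent space at the unit -/
def Tg (G : Set (Matrix ν ν ℂ)) : Submodule ℂ (Matrix ν ν ℂ) where
  carrier := {W | TA G W}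
  zero_mem' := fun _ _ => by simp
  add_mem' := fun h k F hF => by
    simp only [Matrix.add_apply, smul_add, Finset.sum_add_distrib, h F hF, k F hF, add_zero]
  smul_mem' := fun c W h F hF => by
    simp only [Matrix.smul_apply, smul_comm _ c, ← Finset.smul_sum, h F hF, smul_zero]

/-- the normaliser of a space of matrices -/
def Nr (T : Submodule ℂ (Matrix ν ν ℂ)) : Submodule ℂ (Matrix ν ν ℂ) where
  carrier := {Y | ∀ W ∈ T, Y * W - W * Y ∈ T}
  zero_mem' := fun _ _ => by simp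
  add_mem' := fun h k W hW => by
    convert T.add_mem (h W hW) (k W hW) using 1
    noncomm_ring
  smul_mem' := fun c Y h W hW => by
    convert T.smul_mem c (h W hW) using 1
    rw [Matrix.smul_mul, Matrix.mul_smul, smul_sub]

/-- the zeros of the equations of degree at most `d` -/
def Env (d : ℕ) (G : Set (Matrix ν ν ℂ)) : Set (Matrix ν ν ℂ) :=
  {x | x.det ≠ 0 ∧ ∀ F ∈ VI G, F.totalDegree ≤ d → ev x F = 0}

/-- conjugation -/
def Ad (g : Matrix ν ν ℂ) : Module.End ℂ (Matrix ν ν ℂ) := LinearMap.mulLeftRight ℂ (g, g⁻¹)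

/-- the bracket -/
def ad (X : Matrix ν ν ℂ) : Module.End ℂ (Matrix ν ν ℂ) :=
  LinearMap.mulLeft ℂ X - LinearMap.mulRight ℂ X

/-- the map preserves both subspaces -/
def Pres (T N : Submodule ℂ V) (Φ : Module.End ℂ V) : Prop :=
  (∀ w ∈ T, Φ w ∈ T) ∧ ∀ y ∈ N, Φ y ∈ N

/-- a finite group of units -/
structure FG {R : Type*} [Monoid R] (Γ : Set R) : Prop where
  fin : Γ.Finite
  one : 1 ∈ Γ
  mul : ∀ a ∈ Γ, ∀ b ∈ Γ, a * b ∈ Γ
  inv : ∀ a ∈ Γ, ∃ b ∈ Γ, a * b = 1 ∧ b * a = 1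

/-- `Γ` is covered by at most `J` translates of a commutative algebra -/
def Cm {R : Type*} [Ring R] [Algebra ℂ R] (Γ : Set R) (J : ℕ) : Prop :=
  ∃ (𝒜 : Subalgebra ℂ R) (s : Finset R), (∀ a ∈ 𝒜, ∀ b ∈ 𝒜, a * b = b * a) ∧ s.card ≤ J ∧
    ∀ g ∈ Γ, ∃ c ∈ s, ∃ a ∈ 𝒜, g = c * a

end

end Pool.Agent.Lib.MP_5591bc_ag.Jo
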