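import Pool.Agent.Lib.MP_5591bc_ag.Jo.Pts

/-! Tangent vectors and dual numbers. -/

namespace Pool.Agent.Lib.MP_5591bc_ag.Jo

open MvPolynomial Matrix

noncomputable section

variable {ν A B V : Type*} [Fintype ν] [DecidableEq ν] [CommRing A] [Algebra ℂ A] [CommRing B]
  [Algebra ℂ B] [AddCommGroup V] [Module ℂ V] {G : Set (Matrix ν ν ℂ)} {x y W : Matrix ν ν A}
  {a b g X Y Z : Matrix ν ν ℂ} {T : Submodule ℂ (Matrix ν ν ℂ)} {d : ℕ}

omit [Fintype ν] in
theorem tan_fst_entry (W : Matrix ν ν A) (i j : ν) :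
    ((1 + W.map TrivSqZeroExt.inr : Matrix ν ν (DualNumber A)) i j).fst =
      algebraMap ℂ A ((1 : Matrix ν ν ℂ) i j) := by
  rw [Matrix.add_apply, TrivSqZeroExt.fst_add, Matrix.map_apply, TrivSqZeroExt.fst_inr, add_zero,
    Matrix.one_apply, Matrix.one_apply]
  split_ifs <;> simp

omit [Fintype ν] [Algebra ℂ A] in
theorem tan_snd_entry (W : Matrix ν ν A) (i j : ν) :
    ((1 + W.map TrivSqZeroExt.inr : Matrix ν ν (DualNumber A)) i j).snd = W i j := by
  rw [Matrix.add_apply, TrivSqZeroExt.snd_add, Matrix.map_apply, TrivSqZeroExt.snd_inr,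
    Matrix.one_apply]
  split_ifs <;> simp

omit [Fintype ν] in
theorem tan_fst (W : Matrix ν ν A) (F : MvPolynomial (ν × ν) ℂ) :
    (ev (1 + W.map TrivSqZeroExt.inr : Matrix ν ν (DualNumber A)) F).fst =
      algebraMap ℂ A (ev (1 : Matrix ν ν ℂ) F) := by
  induction F using MvPolynomial.induction_on with
  | C c =>
    rw [aeval_C, aeval_C, TrivSqZeroExt.algebraMap_eq_inl', TrivSqZeroExt.fst_inl]
    rfl
  | add p q hp hq => rw [map_add, map_add, TrivSqZeroExt.fst_add, hp, hq, map_add]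
  | mul_X p n hp =>
    rw [map_mul, map_mul, TrivSqZeroExt.fst_mul, hp, aeval_X, aeval_X, tan_fst_entry, map_mul]

theorem tan_snd (W : Matrix ν ν A) (F : MvPolynomial (ν × ν) ℂ) :
    (ev (1 + W.map TrivSqZeroExt.inr : Matrix ν ν (DualNumber A)) F).snd =
      ∑ a : ν × ν, ev (1 : Matrix ν ν ℂ) (pderiv a F) • W a.1 a.2 := by
  induction F using MvPolynomial.induction_on with
  | C c =>
    rw [aeval_C, TrivSqZeroExt.algebraMap_eq_inl', TrivSqZeroExt.snd_inl]
    simp
  | add p q hp hq =>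
    rw [map_add, TrivSqZeroExt.snd_add, hp, hq, ← Finset.sum_add_distrib]
    refine Finset.sum_congr rfl fun a _ => ?_
    rw [map_add, map_add, add_smul]
  | mul_X p n hp =>
    rw [map_mul, DualNumber.snd_mul, hp, tan_fst, aeval_X, tan_fst_entry, tan_snd_entry]
    have e : ∀ a : ν × ν, ev (1 : Matrix ν ν ℂ) (pderiv a (p * MvPolynomial.X n)) • W a.1 a.2 =
        (if n = a then ev (1 : Matrix ν ν ℂ) p • W a.1 a.2 else 0) +
          (ev (1 : Matrix ν ν ℂ) (pderiv a p) • W a.1 a.2) *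
            algebraMap ℂ A ((1 : Matrix ν ν ℂ) n.1 n.2) := by
      intro a
      rw [Derivation.leibniz, smul_eq_mul, smul_eq_mul, map_add, map_mul, map_mul, aeval_X,
        add_smul, mul_smul ((1 : Matrix ν ν ℂ) n.1 n.2), Algebra.smul_def
        ((1 : Matrix ν ν ℂ) n.1 n.2), mul_comm (algebraMap ℂ A _)]
      congr 1
      by_cases hn : n = a
      · subst hn
        rw [pderiv_X_self, map_one, mul_one, if_pos rfl]
      · rw [pderiv_X_of_ne hn, map_zero, mul_zero, zero_smul, if_neg hn]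
    rw [Finset.sum_congr rfl fun a _ => e a, Finset.sum_add_distrib, Finset.sum_ite_eq,
      if_pos (Finset.mem_univ _), ← Finset.sum_mul, Algebra.smul_def]

theorem AG.pt_eps (h : AG G) (W : Matrix ν ν A) :
    Pt G (1 + W.map TrivSqZeroExt.inr : Matrix ν ν (DualNumber A)) ↔ TA G W := by
  constructor
  · intro hp F hF
    rw [← tan_snd, hp.2 F hF, TrivSqZeroExt.snd_zero]
  · intro hW
    refine ⟨?_, fun F hF => ?_⟩
    · rw [TrivSqZeroExt.isUnit_iff_isUnit_fst]
      have e := (TrivSqZeroExt.fstHom ℂ A A).toRingHom.map_det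
        (1 + W.map TrivSqZeroExt.inr : Matrix ν ν (DualNumber A))
      have e1 : (TrivSqZeroExt.fstHom ℂ A A).toRingHom.mapMatrix
          (1 + W.map TrivSqZeroExt.inr : Matrix ν ν (DualNumber A)) = 1 := by
        ext i j
        refine (tan_fst_entry W i j).trans ?_
        rw [Matrix.one_apply, Matrix.one_apply]
        split_ifs <;> simp
      rw [e1, det_one] at e
      have e2 : (1 + W.map TrivSqZeroExt.inr : Matrix ν ν (DualNumber A)).det.fst = 1 := e
      rw [e2]
      exact isUnit_one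
    · refine TrivSqZeroExt.ext ?_ ?_
      · rw [tan_fst, hF 1 h.one, map_zero, TrivSqZeroExt.fst_zero]
      · rw [tan_snd, hW F hF, TrivSqZeroExt.snd_zero]

/-- the inverse commutes with algebra maps -/
theorem tan_map_inv (φ : A →ₐ[ℂ] B) (hx : IsUnit x.det) : (x.map φ)⁻¹ = x⁻¹.map φ := by
  refine Matrix.inv_eq_right_inv ?_
  rw [← Matrix.map_mul, Matrix.mul_nonsing_inv _ hx, Matrix.map_one _ (map_zero φ) (map_one φ)]

omit [DecidableEq ν] in
theorem tan_inl_inr (x W : Matrix ν ν A) :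
    (x.map (TrivSqZeroExt.inlAlgHom ℂ A A) * W.map TrivSqZeroExt.inr :
      Matrix ν ν (DualNumber A)) = (x * W).map TrivSqZeroExt.inr := by
  ext i j
  · simp [Matrix.mul_apply, TrivSqZeroExt.fst_sum]
  · simp [Matrix.mul_apply, TrivSqZeroExt.snd_sum, mul_comm]

omit [DecidableEq ν] in
theorem tan_inr_inl (x W : Matrix ν ν A) :
    (W.map TrivSqZeroExt.inr * x.map (TrivSqZeroExt.inlAlgHom ℂ A A) :
      Matrix ν ν (DualNumber A)) = (W * x).map TrivSqZeroExt.inr := by
  ext i j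
  · simp [Matrix.mul_apply, TrivSqZeroExt.fst_sum]
  · simp [Matrix.mul_apply, TrivSqZeroExt.snd_sum]

theorem AG.ta_conj (h : AG G) (hx : Pt G x) (hW : TA G W) : TA G (x * W * x⁻¹) := by
  have h1 := hx.map (TrivSqZeroExt.inlAlgHom ℂ A A)
  have h2 := h.pt_mul (h.pt_mul h1 ((h.pt_eps W).2 hW)) (h.pt_inv h1)
  rw [mul_add, mul_one, add_mul, Matrix.mul_nonsing_inv _ h1.1, tan_map_inv _ hx.1, tan_inl_inr,
    tan_inr_inl] at h2
  exact (h.pt_eps _).1 h2

/-- the algebra map into the dual numbers which a derivation defines -/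
def tanHom (D : Derivation ℂ A A) : A →ₐ[ℂ] DualNumber A where
  toFun a := TrivSqZeroExt.inl a + TrivSqZeroExt.inr (D a)
  map_one' := by simp
  map_mul' a b := by
    ext
    · simp
    · simp [Derivation.leibniz, mul_comm]
  map_zero' := by simp
  map_add' a b := by
    ext <;> simp
  commutes' c := by
    rw [Derivation.map_algebraMap, TrivSqZeroExt.inr_zero, add_zero,
      TrivSqZeroExt.algebraMap_eq_inl']

theorem AG.ta_der (h : AG G) (D : Derivation ℂ A A) (hx : Pt G x) : TA G (x⁻¹ * x.map D) := by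
  have h1 := hx.map (TrivSqZeroExt.inlAlgHom ℂ A A)
  have h2 := h.pt_div h1 (hx.map (tanHom D))
  have e : x.map (tanHom D) =
      x.map (TrivSqZeroExt.inlAlgHom ℂ A A) + (x.map D).map TrivSqZeroExt.inr := by
    ext i j : 1
    rfl
  rw [e, mul_add, Matrix.nonsing_inv_mul _ h1.1, tan_map_inv _ hx.1, tan_inl_inr] at h2
  exact (h.pt_eps _).1 h2

end

end Pool.Agent.Lib.MP_5591bc_ag.Jo
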